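import Pool.Agent.PZD.Local

/-!
# PZD: the criterion
-/

set_option autoImplicit false

namespace Pool.Agent.PZD

open MvPolynomial

lemma form_hi {σ : Type} {K : Type} [Field K] {e : ℕ} {q : MvPolynomial σ K →ₗ[K] K}
    (hq : IsForm e q) {l : ℕ} {t : MvPolynomial σ K} (ht : t ∈ Hs σ K l) (k : ℕ)
    (a : MvPolynomial σ K) : q ((a - lo k a) * t) = if l + k ≤ e then q (a * t) else 0 := by
  rw [form_mul hq ht (a - lo k a), form_mul hq ht a, map_sub, hc_lo]
  by_cases h1 : l ≤ e
  · rw [if_pos h1, if_pos h1]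
    by_cases h2 : l + k ≤ e
    · rw [if_pos h2, if_neg (by omega), sub_zero]
    · rw [if_neg h2, if_pos (by omega), sub_self, zero_mul, map_zero]
  · rw [if_neg h1, if_neg (by omega)]

section

variable {n m : ℕ} {K : Type} [Field K]
variable {d : ℕ} {p : Fin (n + 1) → (Pu m K →ₗ[K] K)} {g : Pu m K →ₗ[K] K}
variable {F : Rg n m K →ₗ[K] K}

lemma IsPerazzo.ne (hF : IsPerazzo d F p g) : ∃ r, F r ≠ 0 := by
  have h1 : p 0 ≠ 0 := hF.indep.ne_zero 0
  by_contra hne
  push Not at hne
  apply h1
  apply LinearMap.ext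
  intro r
  rw [← hF.lin 0 r, hne]
  rfl

lemma IsPerazzo.full (hF : IsPerazzo d F p g) (hd : 1 ≤ d) (i0 : Fin (n + 1)) (r : Rg n m K) :
    ∃ r' ∈ Hs (Fin (n + 1) ⊕ Fin m) K d, Eqv (ff i0 p g) r r' := by
  obtain ⟨d', rfl⟩ := Nat.exists_eq_add_of_le' hd
  obtain ⟨r', hr', ha, hb⟩ := exists_lift i0 d' (lo (d' + 2) (p0 i0 r))
    (fun j => lo (d' + 1) (pj i0 j r))
    (fun l hl => by rw [hc_lo, if_neg (by omega)])
    (fun j l hl => by rw [hc_lo, if_neg (by omega)])
  refine ⟨r', hr', eqv_of i0 p g r r' ?_ ?_⟩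
  · intro j hj t
    rw [ha]
    induction t using hs_induction with
    | h0 => simp
    | hadd a b ha hb => rw [mul_add, map_add, ha, hb, add_zero]
    | hs l t ht => rw [form_hi (hF.hp j) ht, if_neg (by omega)]
  · intro t
    rw [ha]
    have h1 : ∀ j t, p j ((pj i0 j r - pj i0 j r') * t) = 0 := by
      intro j t
      by_cases hj : j = i0
      · subst hj
        rw [pj_self, pj_self]
        simp
      · rw [hb j hj]
        induction t using hs_induction with
        | h0 => simp
        | hadd a b ha hb => rw [mul_add, map_add, ha, hb, add_zero]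
        | hs l t ht => rw [form_hi (hF.hp j) ht, if_neg (by omega)]
    rw [Finset.sum_eq_zero (fun j _ => h1 j t), add_zero]
    induction t using hs_induction with
    | h0 => simp
    | hadd a b ha hb =>
      rw [mul_add, map_add, map_add, add_add_add_comm, ha, hb, add_zero]
    | hs l t ht =>
      rw [form_hi (hF.hp i0) ht, form_hi hF.hg ht, if_neg (by omega), if_neg (by omega), add_zero]

lemma IsPerazzo.orth (hF : IsPerazzo d F p g) (i0 : Fin (n + 1)) (hP : HP d i0 p g)
    (i : ℕ) (hi : i < d) (r : Rg n m K)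
    (hr : ∀ s ∈ Hs (Fin (n + 1) ⊕ Fin m) K i, ff i0 p g (r * s) = 0) :
    ∃ r' ∈ Hs (Fin (n + 1) ⊕ Fin m) K (d - i), Eqv (ff i0 p g) r r' := by
  classical
  -- first consequences
  have A1 : ∀ j, j ≠ i0 → ∀ l, l + 1 ≤ i → ∀ t ∈ Hs (Fin m) K l, p j (p0 i0 r * t) = 0 := by
    intro j hj l hl t ht
    have h1 : xx n m K j * (xx n m K i0 ^ (i - 1 - l) * inu n m K t) ∈
        Hs (Fin (n + 1) ⊕ Fin m) K i := by
      have := hs_mul (xx_hs (m := m) (K := K) j) (hs_mul (hs_pow (xx_hs (m := m) (K := K) i0)
        (i - 1 - l)) (inu_hs (n := n) ht))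
      rwa [show 1 + (i - 1 - l + l) = i by omega] at this
    have h2 := hr _ h1
    rw [ff_mul, map_mul (p0 i0), p0_x, if_neg hj, zero_mul, mul_zero, map_zero, map_zero,
      zero_add, zero_add] at h2
    simp only [mul_zero, map_zero, Finset.sum_const_zero, zero_add] at h2
    rw [Finset.sum_eq_single j] at h2
    · rw [pj_mul, p0_x, if_neg hj, zero_mul, zero_add, p0_x0_pow, p0_inu, pj_x,
        if_pos ⟨hj, rfl⟩, mul_one] at h2
      exact h2
    · intro j' _ hj'
      rw [pj_mul, p0_x, if_neg hj, zero_mul, zero_add, p0_x0_pow, p0_inu, pj_x,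
        if_neg (fun h => hj' h.2), mul_zero, mul_zero, map_zero]
    · simp
  have A2 : ∀ l, l ≤ i → ∀ t ∈ Hs (Fin m) K l,
      g (p0 i0 r * t) + p i0 (p0 i0 r * t) + ∑ j, p j (pj i0 j r * t) = 0 := by
    intro l hl t ht
    have h1 : xx n m K i0 ^ (i - l) * inu n m K t ∈ Hs (Fin (n + 1) ⊕ Fin m) K i := by
      have := hs_mul (hs_pow (xx_hs (m := m) (K := K) i0) (i - l)) (inu_hs (n := n) ht)
      rwa [Nat.sub_add_cancel hl] at this
    have h2 := hr _ h1
    rw [ff_mul, p0_x0_pow, p0_inu] at h2
    simp_rw [pj_x0_pow, pj_inu] at h2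
    simp only [mul_zero, map_zero, Finset.sum_const_zero, add_zero] at h2
    exact h2
  obtain ⟨k', hk'⟩ : ∃ k', d = i + (k' + 1) := ⟨d - i - 1, by omega⟩
  have hdk : d - (k' + 1) = i := by omega
  have A3 : ∀ l, k' + 1 ≤ l → ∀ j, j ≠ i0 → ∀ t,
      p j (homogeneousComponent l (p0 i0 r) * t) = 0 := by
    intro l hl j hj t
    induction t using hs_induction with
    | h0 => simp
    | hadd a b ha hb => rw [mul_add, map_add, ha, hb, add_zero]
    | hs l' t ht =>
      by_cases h : l + l' = d - 1
      · have h1 := A1 j hj l' (by omega) t ht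
        rw [form_mul (hF.hp j) ht, if_pos (by omega), show d - 1 - l' = l by omega] at h1
        exact h1
      · exact hF.hp j _ h _ (hs_mul (homogeneousComponent_mem l _) ht)
  obtain ⟨ν, hν, hν1, hν2⟩ := hP (k' + 1) (by omega) (by omega)
    (homogeneousComponent (k' + 1) (p0 i0 r)) (homogeneousComponent_mem _ _)
    (A3 (k' + 1) le_rfl) (by
      intro t ht hkill
      rw [hdk] at ht
      have h1 := A2 i le_rfl t ht
      have h2 : ∀ j a, p j (a * t) = 0 := fun j a => by rw [mul_comm]; exact hkill j a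
      rw [h2, Finset.sum_eq_zero (fun j _ => h2 j _), add_zero, add_zero, form_mul hF.hg ht,
        if_pos (by omega), show d - i = k' + 1 by omega] at h1
      exact h1)
  rw [hdk] at hν2
  set a := p0 i0 r with ha
  set q := homogeneousComponent (k' + 1) a with hq
  -- duality
  let p' : Fin (n + 1) → (Pu m K →ₗ[K] K) := fun j => if j = i0 then 0 else p j
  have hp'0 : p' i0 = 0 := if_pos rfl
  have hp'1 : ∀ j, j ≠ i0 → p' j = p j := fun j hj => if_neg hj
  have hp' : ∀ j, IsForm (d - 1) (p' j) := by
    intro j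
    by_cases hj : j = i0
    · rw [hj, hp'0]
      intro k _ r _
      rfl
    · rw [hp'1 j hj]
      exact hF.hp j
  obtain ⟨b, hb, hb1⟩ := dual_rep (Fin (n + 1)) p' hp' (by omega : i ≤ d - 1)
    (-(g ∘ₗ LinearMap.mulLeft K (q + ν))) (by
      intro t ht hk
      rw [LinearMap.neg_apply, LinearMap.comp_apply, LinearMap.mulLeft_apply, neg_eq_zero]
      apply hν2 t ht
      intro j hj s
      have := hk j s
      rwa [hp'1 j hj] at this)
  have hb2 : ∀ j, b j ∈ Hs (Fin m) K k' := by
    intro j
    have := hb j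
    rwa [show d - 1 - i = k' by omega] at this
  obtain ⟨r', hr', ha', hb'⟩ := exists_lift i0 k' (lo (k' + 1) a - ν)
    (fun j => lo (k' + 1) (pj i0 j r) - b j)
    (fun l hl => by rw [map_sub, hc_lo, if_neg (by omega), homogeneousComponent_of_mem hν,
        if_neg (by omega), sub_self])
    (fun j l hl => by rw [map_sub, hc_lo, if_neg (by omega), homogeneousComponent_of_mem (hb2 j),
        if_neg (by omega), sub_self])
  refine ⟨r', ?_, eqv_of i0 p g r r' ?_ ?_⟩
  · rwa [show d - i = k' + 1 by omega]
  · intro j hj t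
    rw [ha', ← ha, sub_sub_eq_add_sub, add_sub_right_comm, add_mul, map_add, hν1, add_zero]
    induction t using hs_induction with
    | h0 => simp
    | hadd a b ha hb => rw [mul_add, map_add, ha, hb, add_zero]
    | hs l t ht =>
      rw [form_hi (hF.hp j) ht]
      split_ifs with h
      · rw [form_mul (hF.hp j) ht, if_pos (by omega)]
        exact A3 _ (by omega) j hj t
      · rfl
  · intro t
    have h0 : ∀ t, ∑ j, p j ((pj i0 j r - pj i0 j r') * t) =
        ∑ j, p' j ((pj i0 j r - lo (k' + 1) (pj i0 j r)) * t) + ∑ j, p' j (b j * t) := by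
      intro t
      rw [← Finset.sum_add_distrib]
      apply Finset.sum_congr rfl
      intro j _
      by_cases hj : j = i0
      · subst hj
        rw [hp'0, pj_self, pj_self]
        simp
      · rw [hp'1 j hj, hb' j hj, ← map_add, ← add_mul]
        congr 2
        ring
    rw [ha', ← ha, h0, sub_sub_eq_add_sub, add_sub_right_comm, add_mul, map_add, map_add, hν1,
      add_zero]
    induction t using hs_induction with
    | h0 => simp
    | hadd t1 t2 h1 h2 =>
      simp_rw [mul_add, map_add, Finset.sum_add_distrib]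
      linear_combination h1 + h2
    | hs l t ht =>
      have e1 : ∀ j, p' j ((pj i0 j r - lo (k' + 1) (pj i0 j r)) * t) =
          if l + (k' + 1) ≤ d - 1 then p' j (pj i0 j r * t) else 0 := by
        intro j
        exact form_hi (hp' j) ht _ _
      rw [form_hi hF.hg ht, form_hi (hF.hp i0) ht]
      simp_rw [e1]
      rcases lt_trichotomy l i with h | h | h
      · have e2 : g (ν * t) = 0 := hF.hg _ (by omega) _ (hs_mul hν ht)
        have e3 : ∀ j, p' j (b j * t) = 0 := fun j => hp' j _ (by omega) _ (hs_mul (hb2 j) ht)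
        rw [e2, Finset.sum_eq_zero (fun j _ => e3 j), if_pos (by omega), if_pos (by omega)]
        refine Eq.trans ?_ (A2 l (by omega) t ht)
        rw [add_zero, add_zero]
        congr 1
        apply Finset.sum_congr rfl
        intro j _
        rw [if_pos (by omega)]
        by_cases hj : j = i0
        · subst hj
          rw [hp'0, pj_self]
          simp
        · rw [hp'1 j hj]
      · subst h
        have h1 := hb1 t ht
        rw [LinearMap.neg_apply, LinearMap.comp_apply, LinearMap.mulLeft_apply, add_mul,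
          map_add] at h1
        rw [← h1, if_pos (by omega), if_neg (by omega), Finset.sum_eq_zero]
        · rw [form_mul hF.hg ht, if_pos (by omega), show d - l = k' + 1 by omega]
          ring
        · intro j _
          rw [if_neg (by omega)]
      · have e2 : g (ν * t) = 0 := hF.hg _ (by omega) _ (hs_mul hν ht)
        have e3 : ∀ j, p' j (b j * t) = 0 := fun j => hp' j _ (by omega) _ (hs_mul (hb2 j) ht)
        rw [e2, Finset.sum_eq_zero (fun j _ => e3 j), if_neg (by omega), if_neg (by omega),
          Finset.sum_eq_zero]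
        · ring
        · intro j _
          rw [if_neg (by omega)]

/-- the criterion with a distinguished index -/
theorem IsPerazzo.good (hF : IsPerazzo d F p g) (hd : 1 ≤ d) (i0 : Fin (n + 1))
    (hP : HP d i0 p g) : Good F (ff i0 p g) (xx n m K i0) d where
  form := hF.form hd
  ne := hF.ne
  lin := xx_hs i0
  one := by
    intro r
    rw [ff_apply, ff_apply, p0_x0_mul]
    simp_rw [pj_x0_mul]
  top := hF.top hd i0
  full := hF.full hd i0
  orth := hF.orth i0 hP

end

end Pool.Agent.PZD
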