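import Pool.Agent.PZD.Hyper

/-!
# PZD: cubic forms
-/

set_option autoImplicit false

namespace Pool.Agent.PZD

open MvPolynomial

section

variable {n m : ℕ} {K : Type} [Field K]
variable {d : ℕ} {p : Fin (n + 1) → (Pu m K →ₗ[K] K)} {g : Pu m K →ₗ[K] K}
variable {F : Rg n m K →ₗ[K] K}

/-- the condition in one degree -/
def HTk (d k : ℕ) (θ : Fin (n + 1) → K) (p : Fin (n + 1) → (Pu m K →ₗ[K] K))
    (g : Pu m K →ₗ[K] K) : Prop :=
  ∀ q ∈ Hs (Fin m) K k, KT θ p q →
    (∀ t ∈ Hs (Fin m) K (d - k), KA p t → g (q * t) = 0) →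
    ∃ ν ∈ Hs (Fin m) K k, KA p ν ∧
      ∀ t ∈ Hs (Fin m) K (d - k), KT θ p t → g ((q + ν) * t) = 0

lemma HTk_dual {k : ℕ} (hk : k ≤ d) {θ : Fin (n + 1) → K} (h : HTk d (d - k) θ p g) :
    HTk d k θ p g := by
  intro q hq hT hg
  have hkk : d - (d - k) = k := by omega
  let S : Submodule K (Pu m K) :=
    { carrier := {t | t ∈ Hs (Fin m) K (d - k) ∧ KT θ p t}
      zero_mem' := ⟨Submodule.zero_mem _, fun i j r => by simp⟩
      add_mem' := by
        rintro a b ⟨ha, ha'⟩ ⟨hb, hb'⟩
        refine ⟨Submodule.add_mem _ ha hb, fun i j r => ?_⟩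
        rw [add_mul, map_add, map_add, mul_add, mul_add, ha', hb']
      smul_mem' := by
        rintro c a ⟨ha, ha'⟩
        refine ⟨Submodule.smul_mem _ _ ha, fun i j r => ?_⟩
        rw [smul_mul_assoc, map_smul, map_smul, smul_eq_mul, smul_eq_mul, mul_left_comm, ha',
          mul_left_comm] }
  let N : Submodule K (Pu m K) :=
    { carrier := {t | t ∈ Hs (Fin m) K k ∧ KA p t}
      zero_mem' := ⟨Submodule.zero_mem _, fun i r => by simp⟩
      add_mem' := by
        rintro a b ⟨ha, ha'⟩ ⟨hb, hb'⟩
        refine ⟨Submodule.add_mem _ ha hb, fun i r => ?_⟩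
        rw [add_mul, map_add, ha', hb', add_zero]
      smul_mem' := by
        rintro c a ⟨ha, ha'⟩
        refine ⟨Submodule.smul_mem _ _ ha, fun i r => ?_⟩
        rw [smul_mul_assoc, map_smul, ha', smul_zero] }
  have hfin : FiniteDimensional K (Hs (Fin m) K (d - k)) :=
    Module.Finite.iff_fg.2 (homogeneousSubmodule_fg (Fin m) K (d - k))
  have hS : S ≤ Hs (Fin m) K (d - k) := fun t ht => ht.1
  have hfS : FiniteDimensional K S := Submodule.finiteDimensional_of_le hS
  let B : N →ₗ[K] S →ₗ[K] K := ((LinearMap.mul K (Pu m K)).compr₂ g).domRestrict₁₂ N S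
  have hB : ∀ a s, B a s = g (a.1 * s.1) := fun a s => rfl
  have h1 : (g ∘ₗ LinearMap.mulLeft K q) ∘ₗ S.subtype ∈ Submodule.span K (Set.range B) := by
    apply FiniteDimensional.mem_span_of_iInf_ker_le_ker
    intro t ht
    rw [LinearMap.mem_ker]
    change g (q * t.1) = 0
    obtain ⟨ν1, hν1, hA1, hν2⟩ := h t.1 t.2.1 t.2.2 (by
      intro ν hν hAν
      rw [hkk] at hν
      have h3 := (Submodule.mem_iInf _).1 ht ⟨ν, hν, hAν⟩
      rw [LinearMap.mem_ker, hB] at h3
      rw [mul_comm]
      exact h3)
    have h4 := hν2 q (by rwa [hkk]) hT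
    rw [add_mul, map_add, mul_comm ν1, hg ν1 hν1 hA1, add_zero, mul_comm] at h4
    exact h4
  rw [← LinearMap.coe_range, Submodule.span_eq] at h1
  obtain ⟨ν, hν⟩ := h1
  refine ⟨-ν.1, Submodule.neg_mem _ ν.2.1, ?_, ?_⟩
  · intro i r
    rw [neg_mul, map_neg, ν.2.2, neg_zero]
  · intro t ht hTt
    have h2 := congrArg (fun L => L ⟨t, ht, hTt⟩) hν
    change g (ν.1 * t) = g (q * t) at h2
    rw [add_mul, neg_mul, map_add, map_neg, h2, add_neg_cancel]

/-- data of a hyperplane at which the condition fails (cubics) -/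
structure Bad (θ : Fin (n + 1) → K) (p : Fin (n + 1) → (Pu m K →ₗ[K] K)) (g : Pu m K →ₗ[K] K)
    (q : Pu m K) (v : Pu m K →ₗ[K] K) (a : Fin (n + 1) → K) : Prop where
  hq : ∀ i r, p i (q * r) = θ i * v r
  hg : ∀ r, g (q * r) = ∑ i, a i * p i r

lemma Bad.symm {θ θ' a a' : Fin (n + 1) → K} {q q' : Pu m K} {v v' : Pu m K →ₗ[K] K}
    (h : Bad θ p g q v a) (h' : Bad θ' p g q' v' a') :
    dotProduct θ' a • v' = dotProduct θ a' • v := by
  apply LinearMap.ext
  intro r
  have h1 := h.hg (q' * r)
  have h2 := h'.hg (q * r)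
  simp_rw [h'.hq] at h1
  simp_rw [h.hq] at h2
  rw [show q * (q' * r) = q' * (q * r) by ring, h2] at h1
  rw [LinearMap.smul_apply, LinearMap.smul_apply, smul_eq_mul, smul_eq_mul, dotProduct,
    dotProduct, Finset.sum_mul, Finset.sum_mul]
  refine Eq.trans ?_ (h1.symm.trans ?_)
  · apply Finset.sum_congr rfl
    intro i _
    ring
  · apply Finset.sum_congr rfl
    intro i _
    ring

lemma cubic_theta [IsAlgClosed K] (hn : 1 ≤ n) :
    ∃ θ : Fin (n + 1) → K, θ ≠ 0 ∧ ∀ q v a, v ≠ 0 → Bad θ p g q v a → dotProduct θ a = 0 := by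
  by_contra hne
  push Not at hne
  obtain ⟨q1, v1, a1, hv1, hb1, hd1⟩ := hne (fun _ => 1) (by
    intro h
    have := congrFun h 0
    simp at this)
  set θ1 : Fin (n + 1) → K := fun _ => 1 with hθ1
  obtain ⟨θ, hθ, hθa⟩ : ∃ θ : Fin (n + 1) → K, θ ≠ 0 ∧ dotProduct θ a1 = 0 := by
    classical
    let j1 : Fin (n + 1) := ⟨1, by omega⟩
    have hj : j1 ≠ 0 := by
      intro h
      have := congrArg Fin.val h
      simp [j1] at this
    by_cases h0 : a1 0 = 0
    · refine ⟨Pi.single 0 1, ?_, ?_⟩
      · intro h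
        have := congrFun h 0
        simp at this
      · rw [single_dotProduct, one_mul, h0]
    · refine ⟨Pi.single j1 (a1 0) - Pi.single 0 (a1 j1), ?_, ?_⟩
      · intro h
        have := congrFun h j1
        rw [Pi.sub_apply, Pi.single_eq_same, Pi.single_eq_of_ne hj, sub_zero] at this
        exact h0 this
      · rw [sub_dotProduct, single_dotProduct, single_dotProduct]
        ring
  obtain ⟨q, v, a, hv, hb, hda⟩ := hne θ hθ
  have hθ1a : dotProduct θ1 a = 0 := by
    have h1 := hb1.symm hb
    rw [hθa, zero_smul] at h1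
    rcases smul_eq_zero.1 h1.symm with h2 | h2
    · exact h2
    · exact absurd h2 hv1
  -- directions of the other vectors
  have hdir : ∀ θ' q' v' a', v' ≠ 0 → Bad θ' p g q' v' a' → dotProduct θ' a1 ≠ 0 →
      ∃ e : K, e ≠ 0 ∧ v' = e • v1 := by
    intro θ' q' v' a' hv' hb' hd'
    have h1 := hb1.symm hb'
    refine ⟨(dotProduct θ' a1)⁻¹ * dotProduct θ1 a', ?_, ?_⟩
    · intro h0
      rcases mul_eq_zero.1 h0 with h2 | h2
      · exact hd' (inv_eq_zero.1 h2)
      · rw [h2, zero_smul] at h1
        rcases smul_eq_zero.1 h1 with h3 | h3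
        · exact hd' h3
        · exact hv' h3
    · rw [mul_smul, ← h1, smul_smul, inv_mul_cancel₀ hd', one_smul]
  by_cases hcase : ∃ c : K, v = c • v1
  · obtain ⟨c, hc⟩ := hcase
    have hc0 : c ≠ 0 := by
      rintro rfl
      rw [zero_smul] at hc
      exact hv hc
    obtain ⟨t, ht⟩ := IsAlgClosed.exists_eq_mul_self (-(c * dotProduct θ1 a1 / dotProduct θ a))
    have hbt : Bad (θ1 + t • θ) p g (q1 + C (t / c) * q) v1 (a1 + (t / c) • a) := by
      constructor
      · intro i r
        rw [add_mul, map_add, mul_assoc, C_mul', map_smul, hb1.hq, hb.hq, hc]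
        simp only [LinearMap.smul_apply, smul_eq_mul, Pi.add_apply, Pi.smul_apply]
        field_simp
      · intro r
        rw [add_mul, map_add, mul_assoc, C_mul', map_smul, hb1.hg, hb.hg, smul_eq_mul,
          Finset.mul_sum, ← Finset.sum_add_distrib]
        apply Finset.sum_congr rfl
        intro i _
        simp only [smul_eq_mul, Pi.add_apply, Pi.smul_apply]
        ring
    have hdt : dotProduct (θ1 + t • θ) (a1 + (t / c) • a) = 0 := by
      rw [add_dotProduct, dotProduct_add, dotProduct_add, smul_dotProduct, smul_dotProduct,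
        dotProduct_smul, dotProduct_smul, hθa, hθ1a]
      simp only [smul_eq_mul, mul_zero, add_zero, zero_add]
      have : t * (t / c * dotProduct θ a) = (t * t) * dotProduct θ a / c := by ring
      rw [this, ← ht]
      field_simp
      ring
    have hne1 : dotProduct (θ1 + t • θ) a1 ≠ 0 := by
      rw [add_dotProduct, smul_dotProduct, hθa, smul_zero, add_zero]
      exact hd1
    obtain ⟨q', v', a', hv', hb', hd'⟩ := hne (θ1 + t • θ) (by
      intro h0
      apply hne1
      rw [h0, zero_dotProduct])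
    have h5 := hb'.symm hbt
    rw [hdt, zero_smul] at h5
    rcases smul_eq_zero.1 h5 with h6 | h6
    · exact hd' h6
    · exact hv1 h6
  · have key : ∀ θ', dotProduct θ' a1 ≠ 0 → dotProduct θ' a = 0 := by
      intro θ' hθ'
      obtain ⟨q', v', a', hv', hb', hd'⟩ := hne θ' (by
        rintro rfl
        apply hθ'
        rw [zero_dotProduct])
      obtain ⟨e, he, hev⟩ := hdir θ' q' v' a' hv' hb' hθ'
      have h1 := hb.symm hb'
      by_contra h2
      by_cases h3 : dotProduct θ a' = 0
      · rw [h3, zero_smul] at h1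
        rcases smul_eq_zero.1 h1 with h4 | h4
        · exact h2 h4
        · exact hv' h4
      · apply hcase
        refine ⟨(dotProduct θ a')⁻¹ * (dotProduct θ' a * e), ?_⟩
        rw [mul_smul, mul_smul, ← hev, h1, smul_smul, inv_mul_cancel₀ h3, one_smul]
    have h7 := key (θ1 + θ) (by rw [add_dotProduct, hθa, add_zero]; exact hd1)
    rw [add_dotProduct, hθ1a, zero_add] at h7
    exact hda h7

lemma cubic_HT (hp : ∀ i, IsForm 2 (p i)) (hg3 : IsForm 3 g) (hli : LinearIndependent K p)
    (hn : 1 ≤ n) (θ : Fin (n + 1) → K) (hθ : θ ≠ 0)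
    (h : ∀ q v a, v ≠ 0 → Bad θ p g q v a → dotProduct θ a = 0) : HT 3 θ p g := by
  classical
  obtain ⟨i0, hi0⟩ : ∃ i0, θ i0 ≠ 0 := by
    by_contra hne
    push Not at hne
    exact hθ (funext hne)
  have h1 : HTk 3 1 θ p g := by
    intro q hq hT hg
    let v : Pu m K →ₗ[K] K := (θ i0)⁻¹ • (p i0 ∘ₗ LinearMap.mulLeft K q)
    have hv : ∀ i r, p i (q * r) = θ i * v r := by
      intro i r
      have := hT i0 i r
      simp only [v, LinearMap.smul_apply, LinearMap.comp_apply, LinearMap.mulLeft_apply,
        smul_eq_mul]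
      field_simp
      linear_combination this
    obtain ⟨b, hb, hb1⟩ := dual_rep (k := 2) (Fin (n + 1)) p hp le_rfl
      (g ∘ₗ LinearMap.mulLeft K q) hg
    have hb0 : ∀ j, ∃ c, b j = C c := by
      intro j
      have h2 : (b j).IsHomogeneous 0 := hb j
      have h3 := ((totalDegree_zero_iff_isHomogeneous _).2 h2)
      exact ⟨_, totalDegree_eq_zero_iff_eq_C.1 h3⟩
    choose a ha using hb0
    have hga : ∀ r, g (q * r) = ∑ i, a i * p i r := by
      intro r
      induction r using hs_induction with
      | h0 => simp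
      | hadd x y hx hy => 
        simp_rw [mul_add, map_add, mul_add]
        rw [Finset.sum_add_distrib, hx, hy]
      | hs l r hr =>
        by_cases hl : l = 2
        · subst hl
          have h2 := hb1 r hr
          rw [LinearMap.comp_apply, LinearMap.mulLeft_apply] at h2
          rw [h2]
          apply Finset.sum_congr rfl
          intro i _
          rw [ha, C_mul', map_smul, smul_eq_mul]
        · rw [hg3 (1 + l) (by omega) _ (hs_mul hq hr), Finset.sum_eq_zero]
          intro i _
          rw [hp i l hl r hr, mul_zero]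
    by_cases hv0 : v = 0
    · refine ⟨-q, Submodule.neg_mem _ hq, ?_, ?_⟩
      · intro i r
        rw [neg_mul, map_neg, hv, hv0, LinearMap.zero_apply, mul_zero, neg_zero]
      · intro t _ _
        rw [add_neg_cancel, zero_mul, map_zero]
    · have h2 := h q v a hv0 ⟨hv, hga⟩
      refine ⟨0, Submodule.zero_mem _, ?_, ?_⟩
      · intro i r
        rw [zero_mul, map_zero]
      · intro t _ hTt
        rw [add_zero, hga]
        have h3 : ∀ i, a i * p i t = (θ i * a i) * ((θ i0)⁻¹ * p i0 t) := by
          intro i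
          have := hTt i0 i 1
          rw [mul_one] at this
          field_simp
          linear_combination a i * this
        rw [Finset.sum_congr rfl (fun i _ => h3 i), ← Finset.sum_mul]
        rw [dotProduct] at h2
        rw [h2, zero_mul]
  intro k hk1 hkd
  have hk : k = 1 ∨ k = 2 ∨ k = 3 := by omega
  rcases hk with rfl | rfl | rfl
  · exact h1
  · exact HTk_dual (by norm_num) h1
  · intro q hq hT hg
    refine ⟨0, Submodule.zero_mem _, ?_, ?_⟩
    · intro i r
      rw [zero_mul, map_zero]
    · intro t ht hTt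
      have h2 : t.IsHomogeneous 0 := ht
      have h3 := totalDegree_eq_zero_iff_eq_C.1 ((totalDegree_zero_iff_isHomogeneous _).2 h2)
      obtain ⟨j, hj⟩ : ∃ j : Fin (n + 1), j ≠ i0 := by
        have : Nontrivial (Fin (n + 1)) := Fin.nontrivial_iff_two_le.2 (by omega)
        exact exists_ne i0
      have h4 : coeff 0 t = 0 := by
        by_contra hc
        have h5 : θ i0 • p j = θ j • p i0 := by
          apply LinearMap.ext
          intro r
          have h6 := hTt i0 j r
          rw [h3, C_mul', map_smul, map_smul, smul_eq_mul, smul_eq_mul] at h6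
          rw [LinearMap.smul_apply, LinearMap.smul_apply, smul_eq_mul, smul_eq_mul]
          apply mul_left_cancel₀ hc
          linear_combination h6
        have h7 := Fintype.linearIndependent_iff.1 hli
          (Pi.single j (θ i0) - Pi.single i0 (θ j)) (by
            simp_rw [Pi.sub_apply, sub_smul]
            rw [Finset.sum_sub_distrib, Finset.sum_eq_single j, Finset.sum_eq_single i0]
            · rw [Pi.single_eq_same, Pi.single_eq_same, h5, sub_self]
            · intro i _ hi
              rw [Pi.single_eq_of_ne hi, zero_smul]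
            · simp
            · intro i _ hi
              rw [Pi.single_eq_of_ne hi, zero_smul]
            · simp) j
        rw [Pi.sub_apply, Pi.single_eq_same, Pi.single_eq_of_ne hj, sub_zero] at h7
        exact hi0 h7
      rw [h3, h4, map_zero, mul_zero, map_zero]

/-- cubic forms -/
theorem IsPerazzo.doubling_of_cubic [IsAlgClosed K] (hF : IsPerazzo 3 F p g) (hn : 1 ≤ n) :
    IsDoublingOfPoints (Ann F) := by
  obtain ⟨θ, hθ, h⟩ := cubic_theta (p := p) (g := g) hn
  exact hF.doubling (by norm_num) θ hθ (cubic_HT hF.hp hF.hg hF.indep hn θ hθ h)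

end

end Pool.Agent.PZD
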