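import Mathlib

/-!
# PZD (MP_89ee62_ag): Perazzo algebras as doublings of zero-dimensional schemes.  Definitions.

`R = MvPolynomial σ K`.  The degree `d` part of the divided power algebra `S` is the `K`-dual of
`R_d` (the coefficient of `X^[a]` in `F` is `F (x^a)`), and contraction is the transpose of
multiplication: `(r ∘ F) (s) = F (r s)`.  So a form `F` of degree `d` is a linear map `R → K`
which vanishes on `R_k` for `k ≠ d`.
-/

set_option autoImplicit false

namespace Pool.Agent.PZD

open MvPolynomial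

section General

variable {σ : Type} {K : Type} [Field K]

/-- forms of degree `i` of `R` -/
abbrev Hs (σ : Type) (K : Type) [Field K] (i : ℕ) : Submodule K (MvPolynomial σ K) :=
  homogeneousSubmodule σ K i

/-- `F` is a form of degree `d` of the divided power algebra (the graded dual of `R`) -/
def IsForm (d : ℕ) (F : MvPolynomial σ K →ₗ[K] K) : Prop :=
  ∀ k, k ≠ d → ∀ r ∈ Hs σ K k, F r = 0

/-- the annihilator of `F` under contraction: `r ∘ F = 0` -/
def Ann (F : MvPolynomial σ K →ₗ[K] K) : Ideal (MvPolynomial σ K) where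
  carrier := {r | ∀ s, F (r * s) = 0}
  zero_mem' := by intro s; simp
  add_mem' := by
    intro a b ha hb s
    rw [add_mul, map_add, ha s, hb s, add_zero]
  smul_mem' := by
    intro c a ha s
    rw [smul_eq_mul, mul_comm c a, mul_assoc]
    exact ha _

/-- `J` is the saturated homogeneous ideal of a (non-empty) zero-dimensional subscheme of the
projective space `Proj R`: `J` is homogeneous and proper, the linear form `l` is a nonzerodivisor
modulo `J`, and `R/J` is a finitely generated module over `K[l]` (so `R/J` is a one-dimensional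
Cohen-Macaulay ring). -/
structure IsPointsIdeal (J : Ideal (MvPolynomial σ K)) (l : MvPolynomial σ K) : Prop where
  proper : (1 : MvPolynomial σ K) ∉ J
  hom : ∀ r ∈ J, ∀ i, homogeneousComponent i r ∈ J
  lin : l ∈ Hs σ K 1
  nzd : ∀ r, l * r ∈ J → r ∈ J
  fin : ∃ N : ℕ, ∀ i, N ≤ i → ∀ r ∈ Hs σ K (i + 1), ∃ s ∈ Hs σ K i, r - l * s ∈ J

/-- The canonical module of `B = R/J` up to a shift of the grading: `Hom_{K[T]}(B, K[T])`, where
`T` acts on `B` as `l` (for a one-dimensional graded Cohen-Macaulay quotient `B` of a polynomial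
ring `R` in `N + 1` variables, `Ext^N_R(B, R)` is isomorphic to this module up to a shift). -/
noncomputable def Omega (J : Ideal (MvPolynomial σ K)) (l : MvPolynomial σ K) :
    Submodule K (MvPolynomial σ K →ₗ[K] Polynomial K) where
  carrier := {L | (∀ r ∈ J, L r = 0) ∧ ∀ r, L (l * r) = Polynomial.X * L r}
  zero_mem' := by
    refine ⟨fun r _ => rfl, fun r => ?_⟩
    simp
  add_mem' := by
    intro a b ha hb
    refine ⟨fun r hr => ?_, fun r => ?_⟩
    · rw [LinearMap.add_apply, ha.1 r hr, hb.1 r hr, add_zero]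
    · rw [LinearMap.add_apply, LinearMap.add_apply, ha.2 r, hb.2 r, mul_add]
  smul_mem' := by
    intro c a ha
    refine ⟨fun r hr => ?_, fun r => ?_⟩
    · rw [LinearMap.smul_apply, ha.1 r hr, smul_zero]
    · rw [LinearMap.smul_apply, LinearMap.smul_apply, ha.2 r, mul_smul_comm]

/-- the `R`-module structure of `Omega`: `(a L)(r) = L (a r)` -/
noncomputable def Omega.act {J : Ideal (MvPolynomial σ K)} {l : MvPolynomial σ K} (a : MvPolynomial σ K)
    (L : Omega J l) : Omega J l :=
  ⟨L.1 ∘ₗ LinearMap.mulLeft K a, by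
    refine ⟨fun r hr => ?_, fun r => ?_⟩
    · exact L.2.1 _ (J.mul_mem_left a hr)
    · have h := L.2.2 (a * r)
      simp only [LinearMap.comp_apply, LinearMap.mulLeft_apply]
      rw [← h]
      congr 1
      ring⟩

/-- `L` is homogeneous of degree `e` -/
def HasDeg (L : MvPolynomial σ K →ₗ[K] Polynomial K) (e : ℤ) : Prop :=
  ∀ i : ℕ, ∀ r ∈ Hs σ K i, ∀ k : ℕ, (L r).coeff k ≠ 0 → (k : ℤ) = i + e

/-- `ψ` is an injective homomorphism of graded `R`-modules `Omega(-t) → R/J` whose image is
`I/J`, so `0 → Omega(-t) → R/J → R/I → 0` is exact -/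
structure DoublingMap (J I : Ideal (MvPolynomial σ K)) (l : MvPolynomial σ K) (t : ℤ)
    (ψ : Omega J l → MvPolynomial σ K ⧸ J) : Prop where
  le : J ≤ I
  add : ∀ L M, ψ (L + M) = ψ L + ψ M
  smul : ∀ a L, ψ (Omega.act a L) = Ideal.Quotient.mk J a * ψ L
  inj : Function.Injective ψ
  range : ∀ y, y ∈ Set.range ψ ↔ ∃ r ∈ I, Ideal.Quotient.mk J r = y
  deg : ∀ (e : ℤ) (L : Omega J l), HasDeg L.1 e →
    ψ L = 0 ∨ ∃ i : ℕ, (i : ℤ) = e + t ∧ ∃ r ∈ Hs σ K i, ψ L = Ideal.Quotient.mk J r

/-- `I` is a doubling of the saturated ideal of some zero-dimensional subscheme of `Proj R` -/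
def IsDoublingOfPoints (I : Ideal (MvPolynomial σ K)) : Prop :=
  ∃ (J : Ideal (MvPolynomial σ K)) (l : MvPolynomial σ K), IsPointsIdeal J l ∧
    ∃ (t : ℤ) (ψ : Omega J l → MvPolynomial σ K ⧸ J), DoublingMap J I l t ψ

end General

section Perazzo

variable {n m : ℕ} {K : Type} [Field K]

/-- `R = K[x_0, …, x_n, u_1, …, u_m]` -/
abbrev Rg (n m : ℕ) (K : Type) [Field K] : Type := MvPolynomial (Fin (n + 1) ⊕ Fin m) K

/-- `K[u_1, …, u_m]` -/
abbrev Pu (m : ℕ) (K : Type) [Field K] : Type := MvPolynomial (Fin m) K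

/-- the variable `x_i` -/
noncomputable abbrev xx (n m : ℕ) (K : Type) [Field K] (i : Fin (n + 1)) : Rg n m K := X (Sum.inl i)

/-- the inclusion `K[u] → R` -/
noncomputable abbrev inu (n m : ℕ) (K : Type) [Field K] : Pu m K →ₐ[K] Rg n m K := rename Sum.inr

/-- `F = X_0 p_0 + ⋯ + X_n p_n + g` with forms `p_i ∈ K[U]_{d-1}`, `g ∈ K[U]_d` (divided powers)
and `p_0, …, p_n` linearly independent.  (Algebraic dependence of the `p_i` is not required.) -/
structure IsPerazzo (d : ℕ) (F : Rg n m K →ₗ[K] K) (p : Fin (n + 1) → (Pu m K →ₗ[K] K))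
    (g : Pu m K →ₗ[K] K) : Prop where
  hp : ∀ i, IsForm (d - 1) (p i)
  hg : IsForm d g
  indep : LinearIndependent K p
  quad : ∀ i j r, F (xx n m K i * xx n m K j * r) = 0
  lin : ∀ i r, F (xx n m K i * inu n m K r) = p i r
  const : ∀ r, F (inu n m K r) = g r

end Perazzo

end Pool.Agent.PZD
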