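import Pool.Agent.PZD.Surj

/-!
# PZD: the doubling
-/

set_option autoImplicit false

namespace Pool.Agent.PZD

open MvPolynomial

variable {σ : Type} {K : Type} [Field K]
variable {F f : MvPolynomial σ K →ₗ[K] K} {l : MvPolynomial σ K} {d : ℕ}

lemma Good.points (h : Good F f l d) : IsPointsIdeal (core f) l where
  proper := by
    intro h1
    obtain ⟨r, hr⟩ := h.ne
    apply hr
    rw [h.Fcomp, ← h.top _ (homogeneousComponent_mem d r)]
    have := core_apply h1 (homogeneousComponent d r)
    rwa [one_mul] at this
  hom := fun r hr i => core_hom hr i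
  lin := h.lin
  nzd := by
    intro r hr i s
    have h1 := hr (i + 1) s
    rw [mul_comm l r, hc_mul_right h.lin, mul_comm _ l, mul_assoc, h.one] at h1
    exact h1
  fin := by
    refine ⟨d, fun i hi r hr => ?_⟩
    obtain ⟨s', hs', hc⟩ := h.red (by omega : d ≤ i + 1) hr
    refine ⟨l ^ (i - d) * s', ?_, ?_⟩
    · have := hs_mul (hs_pow h.lin (i - d)) hs'
      rwa [Nat.sub_add_cancel hi] at this
    · rw [← mul_assoc, ← pow_succ', show i - d + 1 = i + 1 - d by omega]
      exact hc

/-- the chosen preimage -/
noncomputable def Good.pre [Finite σ] (h : Good F f l d) (L : Omega (core f) l) : Ann F :=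
  (h.surj L).choose

lemma Good.pre_spec [Finite σ] (h : Good F f l d) (L : Omega (core f) l) (s : MvPolynomial σ K) :
    (h.Lam (h.pre L)).1 s = L.1 s := (h.surj L).choose_spec s

lemma Good.pre_unique [Finite σ] (h : Good F f l d) (L : Omega (core f) l) (r : Ann F)
    (hr : ∀ s, (h.Lam r).1 s = L.1 s) : (h.pre L).1 - r.1 ∈ core f := by
  apply h.Lam_ker (h.pre L - r)
  intro s
  rw [h.Lam_apply, Submodule.coe_sub, sub_mul, map_sub, ← h.Lam_apply, ← h.Lam_apply,
    h.pre_spec, hr, sub_self]

lemma Good.comp_core [Finite σ] (h : Good F f l d) {e : ℤ} {L : Omega (core f) l}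
    (hL : HasDeg L.1 e) (j : ℕ) (hj : (j : ℤ) ≠ e + (d + 1)) :
    homogeneousComponent j (h.pre L).1 ∈ core f := by
  apply mem_core_of_hs (homogeneousComponent_mem j _)
  intro s
  induction s using hs_induction with
  | h0 => simp
  | hadd a b ha hb => rw [mul_add, map_add, ha, hb, add_zero]
  | hs i s hs =>
    have h1 : l ^ (d + 1) * s ∈ Hs σ K (d + 1 + i) := hs_mul (hs_pow h.lin _) hs
    by_contra hne
    have h2 : ((h.Lam (h.pre L)).1 (l ^ (d + 1) * s)).coeff (j + i) ≠ 0 := by
      rw [h.Lam_apply, Tm_coeff, show j + i + d + 1 = j + (d + 1 + i) by ring, hc_mul_right h1,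
        show homogeneousComponent j (h.pre L).1 * (l ^ (d + 1) * s) =
          l ^ (d + 1) * (homogeneousComponent j (h.pre L).1 * s) by ring, h.pow]
      exact hne
    rw [h.pre_spec] at h2
    have h3 := hL _ _ h1 _ h2
    apply hj
    push_cast at h3
    linarith

/-- a good pair gives a doubling -/
theorem Good.doubling [Finite σ] (h : Good F f l d) : IsDoublingOfPoints (Ann F) := by
  refine ⟨core f, l, h.points, (d : ℤ) + 1, fun L => Ideal.Quotient.mk _ (h.pre L).1, ?_⟩
  refine ⟨h.core_le, ?_, ?_, ?_, ?_, ?_⟩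
  · intro L M
    rw [← map_add, Ideal.Quotient.eq]
    apply h.pre_unique (L + M) (h.pre L + h.pre M)
    intro s
    rw [h.Lam_apply, Submodule.coe_add, add_mul, map_add, ← h.Lam_apply, ← h.Lam_apply,
      h.pre_spec, h.pre_spec]
    rfl
  · intro a L
    rw [← map_mul, Ideal.Quotient.eq]
    apply h.pre_unique (Omega.act a L) ⟨a * (h.pre L).1, (Ann F).mul_mem_left a (h.pre L).2⟩
    intro s
    rw [h.Lam_apply]
    simp only
    rw [mul_comm a, mul_assoc, ← h.Lam_apply, h.pre_spec]
    rfl
  · intro L M hLM
    simp only [Ideal.Quotient.eq] at hLM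
    apply Subtype.ext
    apply LinearMap.ext
    intro s
    rw [← h.pre_spec L, ← h.pre_spec M, ← sub_eq_zero]
    have := h.Lam_core (h.pre L - h.pre M) hLM s
    rw [h.Lam_apply, Submodule.coe_sub, sub_mul, map_sub] at this
    exact this
  · intro y
    constructor
    · rintro ⟨L, rfl⟩
      exact ⟨_, (h.pre L).2, rfl⟩
    · rintro ⟨r, hr, rfl⟩
      refine ⟨h.Lam ⟨r, hr⟩, ?_⟩
      simp only [Ideal.Quotient.eq]
      exact h.pre_unique _ ⟨r, hr⟩ (fun s => rfl)
  · intro e L hL
    by_cases he : 0 ≤ e + (d + 1)
    · right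
      obtain ⟨i, hi⟩ := Int.eq_ofNat_of_zero_le he
      refine ⟨i, hi.symm, homogeneousComponent i (h.pre L).1, homogeneousComponent_mem i _, ?_⟩
      rw [Ideal.Quotient.eq]
      nth_rewrite 1 [← sum_homogeneousComponent (h.pre L).1]
      by_cases hmem : i ∈ Finset.range ((h.pre L).1.totalDegree + 1)
      · rw [← Finset.add_sum_erase _ _ hmem, add_sub_cancel_left]
        apply Submodule.sum_mem
        intro j hj
        apply h.comp_core hL
        rw [hi]
        have := Finset.ne_of_mem_erase hj
        exact_mod_cast this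
      · apply Submodule.sub_mem
        · apply Submodule.sum_mem
          intro j hj
          apply h.comp_core hL
          rw [hi]
          have : j ≠ i := fun hji => hmem (hji ▸ hj)
          exact_mod_cast this
        · rw [homogeneousComponent_eq_zero]
          · exact Submodule.zero_mem _
          · rw [Finset.mem_range, not_lt] at hmem
            omega
    · left
      rw [Ideal.Quotient.eq_zero_iff_mem, ← sum_homogeneousComponent (h.pre L).1]
      apply Submodule.sum_mem
      intro j _
      apply h.comp_core hL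
      omega

end Pool.Agent.PZD
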