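import Pool.Agent.PZD.Defs

/-!
# PZD: a local algebra with the right orthogonality gives a doubling
-/

set_option autoImplicit false

namespace Pool.Agent.PZD

open MvPolynomial

variable {σ : Type} {K : Type} [Field K]

/-- `r` and `r'` agree in the quotient of `R` by the annihilator of `f` -/
def Eqv (f : MvPolynomial σ K →ₗ[K] K) (r r' : MvPolynomial σ K) : Prop :=
  ∀ s, f ((r - r') * s) = 0

/-- the data which give a doubling -/
structure Good (F f : MvPolynomial σ K →ₗ[K] K) (l : MvPolynomial σ K) (d : ℕ) : Prop where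
  form : IsForm d F
  ne : ∃ r, F r ≠ 0
  lin : l ∈ Hs σ K 1
  one : ∀ r, f (l * r) = f r
  top : ∀ r ∈ Hs σ K d, f r = F r
  full : ∀ r, ∃ r' ∈ Hs σ K d, Eqv f r r'
  orth : ∀ i, i < d → ∀ r, (∀ s ∈ Hs σ K i, f (r * s) = 0) → ∃ r' ∈ Hs σ K (d - i), Eqv f r r'

namespace Eqv

variable {f : MvPolynomial σ K →ₗ[K] K}

lemma ap {r r' : MvPolynomial σ K} (h : Eqv f r r') (s : MvPolynomial σ K) :
    f (r * s) = f (r' * s) := by
  have := h s
  rw [sub_mul, map_sub, sub_eq_zero] at this
  exact this

lemma of {r r' : MvPolynomial σ K} (h : ∀ s, f (r * s) = f (r' * s)) : Eqv f r r' := by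
  intro s
  rw [sub_mul, map_sub, h s, sub_self]

end Eqv

/-! ### graded pieces -/

lemma hs_mul {i j : ℕ} {a b : MvPolynomial σ K} (ha : a ∈ Hs σ K i) (hb : b ∈ Hs σ K j) :
    a * b ∈ Hs σ K (i + j) := IsHomogeneous.mul ha hb

lemma hs_pow {a : MvPolynomial σ K} (ha : a ∈ Hs σ K 1) (k : ℕ) : a ^ k ∈ Hs σ K k := by
  have := IsHomogeneous.pow ha k
  rwa [one_mul] at this

/-- decomposition of an additive statement -/
lemma hs_induction {P : MvPolynomial σ K → Prop} (h0 : P 0) (hadd : ∀ a b, P a → P b → P (a + b))
    (hs : ∀ i, ∀ a ∈ Hs σ K i, P a) (r : MvPolynomial σ K) : P r := by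
  rw [← sum_homogeneousComponent r]
  refine Finset.sum_induction _ P hadd h0 ?_
  intro i _
  exact hs i _ (homogeneousComponent_mem i r)

lemma hc_mul_right {i k : ℕ} {s : MvPolynomial σ K} (hs : s ∈ Hs σ K i) (r : MvPolynomial σ K) :
    homogeneousComponent (k + i) (r * s) = homogeneousComponent k r * s := by
  induction r using hs_induction with
  | h0 => simp
  | hadd a b ha hb => rw [add_mul, map_add, ha, hb, map_add, add_mul]
  | hs j a ha =>
    rw [homogeneousComponent_of_mem (hs_mul ha hs), homogeneousComponent_of_mem ha]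
    by_cases h : k = j
    · subst h
      simp
    · rw [if_neg (by omega), if_neg h, zero_mul]

lemma hc_mul_right' {i k : ℕ} {s : MvPolynomial σ K} (hs : s ∈ Hs σ K i) (r : MvPolynomial σ K)
    (hk : k < i) : homogeneousComponent k (r * s) = 0 := by
  induction r using hs_induction with
  | h0 => simp
  | hadd a b ha hb => rw [add_mul, map_add, ha, hb, add_zero]
  | hs j a ha =>
    rw [homogeneousComponent_of_mem (hs_mul ha hs)]
    rw [if_neg (by omega)]


/-! ### the ideal of the scheme -/

/-- the ideal generated by the homogeneous elements of the annihilator of `f` -/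
def core (f : MvPolynomial σ K →ₗ[K] K) : Ideal (MvPolynomial σ K) where
  carrier := {r | ∀ i s, f (homogeneousComponent i r * s) = 0}
  zero_mem' := by intro i s; simp
  add_mem' := by
    intro a b ha hb i s
    rw [map_add, add_mul, map_add, ha i s, hb i s, add_zero]
  smul_mem' := by
    intro c a ha
    rw [smul_eq_mul]
    induction c using hs_induction with
    | h0 => intro i s; simp
    | hadd b b' hb hb' =>
      intro i s
      rw [add_mul, map_add, add_mul, map_add, hb i s, hb' i s, add_zero]
    | hs j b hb =>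
      intro i s
      rw [mul_comm b a]
      rcases lt_or_ge i j with h | h
      · rw [hc_mul_right' hb a h]
        simp
      · obtain ⟨k, rfl⟩ := Nat.exists_eq_add_of_le' h
        rw [hc_mul_right hb, mul_assoc]
        exact ha k _

variable {f : MvPolynomial σ K →ₗ[K] K}

lemma mem_core_iff {r : MvPolynomial σ K} :
    r ∈ core f ↔ ∀ i s, f (homogeneousComponent i r * s) = 0 := Iff.rfl

lemma mem_core_of_hs {i : ℕ} {r : MvPolynomial σ K} (hr : r ∈ Hs σ K i) (h : ∀ s, f (r * s) = 0) :
    r ∈ core f := by
  intro j s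
  rw [homogeneousComponent_of_mem hr]
  split_ifs with hj
  · exact h s
  · simp

lemma core_apply {r : MvPolynomial σ K} (hr : r ∈ core f) (s : MvPolynomial σ K) :
    f (r * s) = 0 := by
  rw [← sum_homogeneousComponent r, Finset.sum_mul, map_sum]
  exact Finset.sum_eq_zero fun i _ => hr i s

lemma core_hom {r : MvPolynomial σ K} (hr : r ∈ core f) (i : ℕ) :
    homogeneousComponent i r ∈ core f :=
  mem_core_of_hs (homogeneousComponent_mem i r) (hr i)

/-! ### the map to the canonical module -/

/-- `T r = ∑_k f(r_{k+d+1}) X^k` -/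
noncomputable def Tm (f : MvPolynomial σ K →ₗ[K] K) (d : ℕ) :
    MvPolynomial σ K →ₗ[K] Polynomial K :=
  (basisMonomials σ K).constr K (fun m => if d < m.degree then
    Polynomial.C (f (monomial m 1)) * Polynomial.X ^ (m.degree - d - 1) else 0)

lemma Tm_coeff (d : ℕ) (r : MvPolynomial σ K) (k : ℕ) :
    (Tm f d r).coeff k = f (homogeneousComponent (k + d + 1) r) := by
  induction r using MvPolynomial.induction_on' with
  | monomial m c =>
    have h1 : (monomial m c : MvPolynomial σ K) = c • monomial m 1 := by
      rw [smul_monomial, smul_eq_mul, mul_one]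
    have h2 : Tm f d (monomial m 1) = if d < m.degree then
        Polynomial.C (f (monomial m 1)) * Polynomial.X ^ (m.degree - d - 1) else 0 := by
      unfold Tm
      have := (basisMonomials σ K).constr_basis K (fun m => if d < m.degree then
        Polynomial.C (f (monomial m 1)) * Polynomial.X ^ (m.degree - d - 1) else 0) m
      rw [coe_basisMonomials] at this
      exact this
    have h3 : (monomial m (1 : K) : MvPolynomial σ K) ∈ Hs σ K m.degree :=
      isHomogeneous_monomial 1 rfl
    rw [h1, map_smul, map_smul, map_smul, Polynomial.coeff_smul, h2, homogeneousComponent_of_mem h3]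
    congr 1
    by_cases h : d < m.degree
    · rw [if_pos h, Polynomial.coeff_C_mul, Polynomial.coeff_X_pow]
      by_cases hk : k = m.degree - d - 1
      · rw [if_pos hk, if_pos (by omega), mul_one]
      · rw [if_neg hk, if_neg (by omega), mul_zero, map_zero]
    · rw [if_neg h, if_neg (by omega), Polynomial.coeff_zero, map_zero]
  | add p q hp hq => rw [map_add, Polynomial.coeff_add, hp, hq, map_add, map_add]

section

variable {F : MvPolynomial σ K →ₗ[K] K} {l : MvPolynomial σ K} {d : ℕ}

lemma Good.pow (h : Good F f l d) (k : ℕ) (r : MvPolynomial σ K) : f (l ^ k * r) = f r := by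
  induction k with
  | zero => simp
  | succ k ih => rw [pow_succ', mul_assoc, h.one, ih]

lemma Good.Fcomp (h : Good F f l d) (r : MvPolynomial σ K) :
    F r = F (homogeneousComponent d r) := by
  induction r using hs_induction with
  | h0 => simp
  | hadd a b ha hb => rw [map_add, map_add, map_add, ha, hb]
  | hs i a ha =>
    rw [homogeneousComponent_of_mem ha]
    by_cases hi : d = i
    · rw [if_pos hi]
    · rw [if_neg hi, map_zero, h.form i (Ne.symm hi) a ha]

lemma Good.comp_zero (h : Good F f l d) {r : MvPolynomial σ K} (hr : F r = 0) :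
    f (homogeneousComponent d r) = 0 := by
  rw [h.top _ (homogeneousComponent_mem d r), ← h.Fcomp, hr]

lemma Good.Tm_mul (h : Good F f l d) {r : MvPolynomial σ K} (hr : F r = 0) :
    Tm f d (l * r) = Polynomial.X * Tm f d r := by
  ext k
  rw [Tm_coeff]
  cases k with
  | zero =>
    rw [Polynomial.mul_coeff_zero, Polynomial.coeff_X_zero, zero_mul, mul_comm l r, Nat.zero_add,
      hc_mul_right h.lin, mul_comm, h.one, h.comp_zero hr]
  | succ k =>
    rw [Polynomial.coeff_X_mul, Tm_coeff, mul_comm l r,
      show k + 1 + d + 1 = (k + d + 1) + 1 by ring, hc_mul_right h.lin, mul_comm, h.one]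

/-- the map `I → Omega` -/
noncomputable def Good.Lam (h : Good F f l d) (r : Ann F) : Omega (core f) l :=
  ⟨Tm f d ∘ₗ LinearMap.mulLeft K r.1, by
    refine ⟨fun s hs => ?_, fun s => ?_⟩
    · ext k
      rw [LinearMap.comp_apply, LinearMap.mulLeft_apply, Tm_coeff, Polynomial.coeff_zero]
      have h1 : r.1 * s ∈ core f := (core f).mul_mem_left _ hs
      have h2 := h1 (k + d + 1) 1
      rwa [mul_one] at h2
    · rw [LinearMap.comp_apply, LinearMap.mulLeft_apply, LinearMap.comp_apply,
        LinearMap.mulLeft_apply]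
      rw [← h.Tm_mul (r.2 s)]
      congr 1
      ring⟩

lemma Good.Lam_apply (h : Good F f l d) (r : Ann F) (s : MvPolynomial σ K) :
    (h.Lam r).1 s = Tm f d (r.1 * s) := rfl

lemma Good.core_le (h : Good F f l d) : core f ≤ Ann F := by
  intro r hr s
  rw [h.Fcomp]
  have h1 : r * s ∈ core f := (core f).mul_mem_right _ hr
  rw [← h.top _ (homogeneousComponent_mem d _)]
  have h2 := h1 d 1
  rwa [mul_one] at h2

lemma Good.Lam_ker (h : Good F f l d) (r : Ann F) (hr : ∀ s, (h.Lam r).1 s = 0) : r.1 ∈ core f := by
  intro i s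
  induction s using hs_induction with
  | h0 => simp
  | hadd a b ha hb => rw [mul_add, map_add, ha, hb, add_zero]
  | hs j s hs =>
    have h1 : l ^ (d + 1) * s ∈ Hs σ K (d + 1 + j) := hs_mul (hs_pow h.lin _) hs
    have h2 := hr (l ^ (d + 1) * s)
    rw [h.Lam_apply] at h2
    have h3 := congrArg (fun q => Polynomial.coeff q (i + j)) h2
    simp only [Tm_coeff, Polynomial.coeff_zero] at h3
    rw [show i + j + d + 1 = i + (d + 1 + j) by ring, hc_mul_right h1,
      show homogeneousComponent i r.1 * (l ^ (d + 1) * s) =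
        l ^ (d + 1) * (homogeneousComponent i r.1 * s) by ring, h.pow] at h3
    exact h3

lemma Good.Lam_core (h : Good F f l d) (r : Ann F) (hr : r.1 ∈ core f) (s : MvPolynomial σ K) :
    (h.Lam r).1 s = 0 := by
  rw [h.Lam_apply]
  ext k
  rw [Tm_coeff, Polynomial.coeff_zero]
  have h1 : r.1 * s ∈ core f := (core f).mul_mem_right _ hr
  have h2 := h1 (k + d + 1) 1
  rwa [mul_one] at h2

end

end Pool.Agent.PZD
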