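import Pool.Agent.PZD.Trans

/-!
# PZD: sufficient conditions
-/

set_option autoImplicit false

namespace Pool.Agent.PZD

open MvPolynomial

section

variable {σ : Type} {K : Type} [Field K]

lemma split_zero {a b : ℕ} (q : MvPolynomial σ K →ₗ[K] K)
    (h : ∀ x ∈ Hs σ K a, ∀ y ∈ Hs σ K b, q (x * y) = 0) (r : MvPolynomial σ K)
    (hr : r ∈ Hs σ K (a + b)) : q r = 0 := by
  rw [← support_sum_monomial_coeff r, map_sum]
  apply Finset.sum_eq_zero
  intro s hs
  have hdeg : s.degree = a + b := by
    have := hr (mem_support_iff.1 hs)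
    rwa [Finsupp.degree_eq_weight_one]
  obtain ⟨s1, hs1, h1⟩ := Finsupp.exists_le_degree_eq s a (by omega)
  obtain ⟨s2, rfl⟩ := le_iff_exists_add.1 hs1
  have h2 : s2.degree = b := by
    rw [map_add, h1] at hdeg
    omega
  have h3 := h (monomial s1 1) (isHomogeneous_monomial _ h1) (monomial s2 (coeff (s1 + s2) r))
    (isHomogeneous_monomial _ h2)
  rwa [monomial_mul, one_mul] at h3

lemma finrank_hs_le (m : ℕ) (K : Type) [Field K] (k : ℕ) :
    Module.finrank K (Hs (Fin m) K k) ≤ (m + k - 1).choose k := by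
  classical
  have h1 : Hs (Fin m) K k ≤ Submodule.span K
      (((Finset.univ.finsuppAntidiag k).image fun s => (monomial s (1 : K) : Pu m K) :
        Finset (Pu m K)) : Set (Pu m K)) := by
    intro r hr
    rw [← support_sum_monomial_coeff r]
    apply Submodule.sum_mem
    intro s hs
    have hdeg : s.degree = k := by
      have := hr (mem_support_iff.1 hs)
      rwa [Finsupp.degree_eq_weight_one]
    have h2 : monomial s (coeff s r) = coeff s r • (monomial s (1 : K) : Pu m K) := by
      rw [smul_monomial, smul_eq_mul, mul_one]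
    rw [h2]
    apply Submodule.smul_mem
    apply Submodule.subset_span
    rw [Finset.coe_image]
    refine ⟨s, ?_, rfl⟩
    rw [Finset.mem_coe, Finset.mem_finsuppAntidiag]
    refine ⟨?_, Finset.subset_univ _⟩
    rw [← hdeg, Finsupp.degree_eq_sum]
  have h3 := Submodule.finrank_mono h1
  refine h3.trans ((finrank_span_finset_le_card _).trans (Finset.card_image_le.trans ?_))
  rw [Finset.card_finsuppAntidiag_nat_eq_choose, Finset.card_univ, Fintype.card_fin]

end

section

variable {n m : ℕ} {K : Type} [Field K]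
variable {d : ℕ} {p : Fin (n + 1) → (Pu m K →ₗ[K] K)} {g : Pu m K →ₗ[K] K}
variable {F : Rg n m K →ₗ[K] K}

lemma KA_of_mul (hp : ∀ i, IsForm (d - 1) (p i)) {k k0 : ℕ} (h1 : k ≤ k0) (h2 : k0 ≤ d - 1)
    {q : Pu m K} (hq : q ∈ Hs (Fin m) K k) (h : ∀ t ∈ Hs (Fin m) K (k0 - k), KA p (q * t)) :
    KA p q := by
  intro i r
  induction r using hs_induction with
  | h0 => simp
  | hadd a b ha hb => rw [mul_add, map_add, ha, hb, add_zero]
  | hs l r hr =>
    by_cases hl : k + l = d - 1
    · have hr' : r ∈ Hs (Fin m) K ((k0 - k) + (d - 1 - k0)) := by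
        rwa [show k0 - k + (d - 1 - k0) = l by omega]
      apply split_zero ((p i) ∘ₗ LinearMap.mulLeft K q) _ r hr'
      intro x hx y _
      rw [LinearMap.comp_apply, LinearMap.mulLeft_apply, ← mul_assoc]
      exact h x hx i y
    · exact hp i _ hl _ (hs_mul hq hr)

lemma HT_of_half (hd : 1 ≤ d) (hp : ∀ i, IsForm (d - 1) (p i)) (θ : Fin (n + 1) → K)
    (h : ∀ q ∈ Hs (Fin m) K (d / 2), KT θ p q → KA p q) : HT d θ p g := by
  have key : ∀ k, k ≤ d / 2 → ∀ q ∈ Hs (Fin m) K k, KT θ p q → KA p q := by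
    intro k hk q hq hT
    apply KA_of_mul hp hk (by omega) hq
    intro t ht
    apply h
    · have := hs_mul hq ht
      rwa [Nat.add_sub_cancel' hk] at this
    · intro i j r
      rw [mul_assoc]
      exact hT i j (t * r)
  intro k hk1 hkd q hq hT hg
  rcases le_or_gt k (d / 2) with h1 | h1
  · refine ⟨-q, Submodule.neg_mem _ hq, ?_, ?_⟩
    · intro i r
      rw [neg_mul, map_neg, key k h1 q hq hT i r, neg_zero]
    · intro t _ _
      rw [add_neg_cancel, zero_mul, map_zero]
  · refine ⟨0, Submodule.zero_mem _, ?_, ?_⟩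
    · intro i r
      rw [zero_mul, map_zero]
    · intro t ht hTt
      rw [add_zero]
      exact hg t ht (key (d - k) (by omega) t ht hTt)

lemma exists_theta (h : (m + d / 2 - 1).choose (d / 2) < n + 1) :
    ∃ θ : Fin (n + 1) → K, θ ≠ 0 ∧ ∀ q ∈ Hs (Fin m) K (d / 2), KT θ p q → KA p q := by
  classical
  by_contra hne
  push Not at hne
  have h1 : ∀ j : Fin (n + 1), ∃ q : Hs (Fin m) K (d / 2), (∀ i, i ≠ j → ∀ r, p i (q.1 * r) = 0) ∧
      ∃ r, p j (q.1 * r) ≠ 0 := by
    intro j
    obtain ⟨q, hq, hT, hA⟩ := hne (Pi.single j 1) (by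
      intro h0
      have := congrFun h0 j
      simp at this)
    have h2 : ∀ i, i ≠ j → ∀ r, p i (q * r) = 0 := by
      intro i hi r
      have := hT j i r
      rw [Pi.single_eq_same, Pi.single_eq_of_ne hi] at this
      simpa using this
    refine ⟨⟨q, hq⟩, h2, ?_⟩
    unfold KA at hA
    push Not at hA
    obtain ⟨i, r, hr⟩ := hA
    by_cases hi : i = j
    · subst hi
      exact ⟨r, hr⟩
    · exact absurd (h2 i hi r) hr
  choose q hq r hr using h1
  have hfin : FiniteDimensional K (Hs (Fin m) K (d / 2)) :=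
    Module.Finite.iff_fg.2 (homogeneousSubmodule_fg (Fin m) K (d / 2))
  have hli : LinearIndependent K q := by
    rw [Fintype.linearIndependent_iff]
    intro c hc j
    have h2 : ∑ i, c i • (q i).1 = 0 := by
      have := congrArg (Submodule.subtype _) hc
      rwa [map_sum] at this
    have h3 : p j ((∑ i, c i • (q i).1) * r j) = c j * p j ((q j).1 * r j) := by
      rw [Finset.sum_mul, map_sum, Finset.sum_eq_single j]
      · rw [smul_mul_assoc, map_smul, smul_eq_mul]
      · intro i _ hi
        rw [smul_mul_assoc, map_smul, hq i j (Ne.symm hi), smul_zero]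
      · simp
    rw [h2, zero_mul, map_zero] at h3
    rcases mul_eq_zero.1 h3.symm with h4 | h4
    · exact h4
    · exact absurd h4 (hr j)
  have h4 := hli.fintype_card_le_finrank
  rw [Fintype.card_fin] at h4
  have h5 := finrank_hs_le m K (d / 2)
  omega

/-- many forms -/
theorem IsPerazzo.doubling_of_many (hF : IsPerazzo d F p g) (hd : 1 ≤ d)
    (h : (m + d / 2 - 1).choose (d / 2) < n + 1) : IsDoublingOfPoints (Ann F) := by
  obtain ⟨θ, hθ, hT⟩ := exists_theta (K := K) (p := p) h
  exact hF.doubling hd θ hθ (HT_of_half hd hF.hp θ hT)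

end

end Pool.Agent.PZD
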