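import Pool.Agent.PZD.Point

/-!
# PZD: the criterion for a Perazzo form, distinguished index
-/

set_option autoImplicit false

namespace Pool.Agent.PZD

open MvPolynomial

section

variable {n m : ℕ} {K : Type} [Field K]

lemma deg_p (i0 : Fin (n + 1)) (k : ℕ) : ∀ r ∈ Hs (Fin (n + 1) ⊕ Fin m) K k,
    (∀ l, k < l → homogeneousComponent l (p0 i0 r) = 0) ∧
    ∀ j l, k ≤ l → homogeneousComponent l (pj i0 j r) = 0 := by
  induction k using Nat.strong_induction_on with
  | _ k ih =>
    refine rg_induction ?_ ?_ ?_ ?_ ?_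
    · simp
    · intro a b ha hb
      refine ⟨fun l hl => ?_, fun j l hl => ?_⟩
      · rw [map_add, map_add, ha.1 l hl, hb.1 l hl, add_zero]
      · rw [map_add, map_add, ha.2 j l hl, hb.2 j l hl, add_zero]
    · intro a ha
      refine ⟨fun l hl => ?_, fun j l hl => ?_⟩
      · rw [p0_inu, homogeneousComponent_of_mem ha, if_neg (by omega)]
      · rw [pj_inu, map_zero]
    · intro i l' hl' a ha
      refine ⟨fun l hl => ?_, fun j l hl => ?_⟩
      · rw [map_mul, p0_x, p0_inu]
        split_ifs with h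
        · rw [one_mul, homogeneousComponent_of_mem ha, if_neg (by omega)]
        · rw [zero_mul, map_zero]
      · rw [pj_mul, pj_inu, p0_inu, pj_x, mul_zero, zero_add]
        split_ifs with h
        · rw [mul_one, homogeneousComponent_of_mem ha, if_neg (by omega)]
        · rw [mul_zero, map_zero]
    · intro i j' l' hl' r hr
      have h1 := ih l' (by omega) r hr
      refine ⟨fun l hl => ?_, fun j l hl => ?_⟩
      · rw [map_mul (p0 i0), map_mul (p0 i0), p0_x, p0_x]
        split_ifs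
        · rw [one_mul, one_mul, h1.1 l (by omega)]
        all_goals simp
      · rw [mul_assoc, pj_mul, pj_mul, p0_x, p0_x, map_mul, p0_x, pj_x, pj_x]
        split_ifs
        all_goals simp
        all_goals simp [h1.1 l (by omega), h1.2 j l (by omega)]

variable {d : ℕ} {p : Fin (n + 1) → (Pu m K →ₗ[K] K)} {g : Pu m K →ₗ[K] K}
variable {F : Rg n m K →ₗ[K] K}

lemma IsPerazzo.form (hF : IsPerazzo d F p g) (hd : 1 ≤ d) : IsForm d F := by
  intro k hk
  refine rg_induction ?_ ?_ ?_ ?_ ?_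
  · simp
  · intro a b ha hb
    rw [map_add, ha, hb, add_zero]
  · intro a ha
    rw [hF.const, hF.hg k hk a ha]
  · intro i l hl a ha
    rw [hF.lin, hF.hp i l (by omega) a ha]
  · intro i j l hl r hr
    exact hF.quad i j r

lemma IsPerazzo.top (hF : IsPerazzo d F p g) (hd : 1 ≤ d) (i0 : Fin (n + 1)) :
    ∀ r ∈ Hs (Fin (n + 1) ⊕ Fin m) K d, ff i0 p g r = F r := by
  refine rg_induction ?_ ?_ ?_ ?_ ?_
  · simp
  · intro a b ha hb
    rw [map_add, map_add, ha, hb]
  · intro a ha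
    rw [ff_apply, p0_inu, hF.const, hF.hp i0 d (by omega) a ha]
    simp_rw [pj_inu]
    simp
  · intro i l hl a ha
    rw [ff_apply, hF.lin, map_mul, p0_x, p0_inu]
    simp_rw [pj_mul, pj_inu, p0_inu, pj_x]
    by_cases h : i = i0
    · subst h
      rw [if_pos rfl, one_mul, hF.hg l (by omega) a ha, zero_add, Finset.sum_eq_zero, add_zero]
      intro j _
      rw [if_neg (fun h => h.1 h.2)]
      simp
    · rw [if_neg h, zero_mul, map_zero, map_zero, zero_add, zero_add, Finset.sum_eq_single i]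
      · rw [if_pos ⟨h, rfl⟩, mul_zero, zero_add, mul_one]
      · intro j _ hj
        rw [if_neg (fun h => hj h.2)]
        simp
      · simp
  · intro i j l hl r hr
    rw [hF.quad]
    have h1 := deg_p i0 l r hr
    have h2 : g (p0 i0 r) = 0 := form_zero hF.hg (h1.1 d (by omega))
    have h3 : ∀ j, p j (p0 i0 r) = 0 := fun j => form_zero (hF.hp j) (h1.1 (d - 1) (by omega))
    have h4 : ∀ j, p j (pj i0 j r) = 0 := fun j => form_zero (hF.hp j) (h1.2 j (d - 1) (by omega))
    rw [ff_apply, map_mul (p0 i0), map_mul (p0 i0), p0_x, p0_x]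
    rw [Finset.sum_eq_zero]
    · split_ifs
      · rw [one_mul, one_mul, h2, h3]
        simp
      all_goals simp
    · intro k _
      rw [mul_assoc, pj_mul, pj_mul, p0_x, p0_x, map_mul, p0_x, pj_x, pj_x]
      split_ifs
      all_goals simp [h3, h4]

/-- the condition with a distinguished index -/
def HP (d : ℕ) (i0 : Fin (n + 1)) (p : Fin (n + 1) → (Pu m K →ₗ[K] K)) (g : Pu m K →ₗ[K] K) : Prop :=
  ∀ k, 1 ≤ k → k ≤ d → ∀ q ∈ Hs (Fin m) K k, (∀ j, j ≠ i0 → ∀ r, p j (q * r) = 0) →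
    (∀ t ∈ Hs (Fin m) K (d - k), (∀ i r, p i (t * r) = 0) → g (q * t) = 0) →
    ∃ ν ∈ Hs (Fin m) K k, (∀ i r, p i (ν * r) = 0) ∧
      ∀ t ∈ Hs (Fin m) K (d - k), (∀ j, j ≠ i0 → ∀ r, p j (t * r) = 0) → g ((q + ν) * t) = 0

/-- duality -/
lemma dual_rep {k e : ℕ} (J : Type) [Fintype J] (p : J → (Pu m K →ₗ[K] K))
    (hp : ∀ j, IsForm e (p j)) (hke : k ≤ e) (φ : Pu m K →ₗ[K] K)
    (hφ : ∀ t ∈ Hs (Fin m) K k, (∀ j r, p j (t * r) = 0) → φ t = 0) :
    ∃ b : J → Pu m K, (∀ j, b j ∈ Hs (Fin m) K (e - k)) ∧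
      ∀ t ∈ Hs (Fin m) K k, φ t = ∑ j, p j (b j * t) := by
  classical
  have hfin : FiniteDimensional K (Hs (Fin m) K k) :=
    Module.Finite.iff_fg.2 (homogeneousSubmodule_fg (Fin m) K k)
  let B : (J → Hs (Fin m) K (e - k)) →ₗ[K] Hs (Fin m) K k →ₗ[K] K :=
    LinearMap.lsum K (fun _ => Hs (Fin m) K (e - k)) K (fun j =>
      ((LinearMap.mul K (Pu m K)).compr₂ (p j)).domRestrict₁₂ (Hs (Fin m) K (e - k)) (Hs (Fin m) K k))
  have hB : ∀ b t, B b t = ∑ j, p j ((b j).1 * t.1) := by
    intro b t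
    simp only [B]
    rw [LinearMap.lsum_apply, LinearMap.sum_apply, LinearMap.sum_apply]
    rfl
  have h1 : φ ∘ₗ (Hs (Fin m) K k).subtype ∈ Submodule.span K (Set.range B) := by
    apply FiniteDimensional.mem_span_of_iInf_ker_le_ker
    intro t ht
    rw [LinearMap.mem_ker]
    apply hφ _ t.2
    intro j r
    have h2 : ∀ s ∈ Hs (Fin m) K (e - k), p j (s * t.1) = 0 := by
      intro s hs
      have h3 := (Submodule.mem_iInf _).1 ht (Pi.single j ⟨s, hs⟩)
      rw [LinearMap.mem_ker, hB, Finset.sum_eq_single j] at h3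
      · rwa [Pi.single_eq_same] at h3
      · intro j' _ hj'
        rw [Pi.single_eq_of_ne hj']
        simp
      · simp
    have h4 := form_mul (hp j) t.2 r
    rw [mul_comm, h4, if_pos hke]
    exact h2 _ (homogeneousComponent_mem _ _)
  rw [← LinearMap.coe_range, Submodule.span_eq] at h1
  obtain ⟨b, hb⟩ := h1
  refine ⟨fun j => (b j).1, fun j => (b j).2, fun t ht => ?_⟩
  have h2 := congrArg (fun L => L ⟨t, ht⟩) hb
  simp only [hB] at h2
  exact h2.symm

end

end Pool.Agent.PZD
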