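import Pool.Agent.PZD.Double

/-!
# PZD: the local algebra of a Perazzo form
-/

set_option autoImplicit false

namespace Pool.Agent.PZD

open MvPolynomial

/-! ### graded tools for `P = K[u]` -/

section Tools

variable {σ : Type} {K : Type} [Field K]

/-- value of a form of degree `e` on a product with a homogeneous element -/
lemma form_mul {e : ℕ} {q : MvPolynomial σ K →ₗ[K] K} (hq : IsForm e q) {k : ℕ}
    {t : MvPolynomial σ K} (ht : t ∈ Hs σ K k) (a : MvPolynomial σ K) :
    q (a * t) = if k ≤ e then q (homogeneousComponent (e - k) a * t) else 0 := by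
  induction a using hs_induction with
  | h0 => simp
  | hadd a b ha hb =>
    rw [add_mul, map_add, ha, hb, map_add, add_mul, map_add]
    split_ifs <;> simp
  | hs j a ha =>
    have h1 := hs_mul ha ht
    rw [homogeneousComponent_of_mem ha]
    by_cases hj : j + k = e
    · rw [if_pos (by omega), if_pos (by omega)]
    · rw [hq _ hj _ h1]
      split_ifs with h2 h3
      · omega
      · simp
      · rfl

/-- a form of degree `e` kills elements without component of degree `e` -/
lemma form_zero {e : ℕ} {q : MvPolynomial σ K →ₗ[K] K} (hq : IsForm e q) {a : MvPolynomial σ K}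
    (ha : homogeneousComponent e a = 0) : q a = 0 := by
  have h1 := form_mul hq (isHomogeneous_one σ K : (1 : MvPolynomial σ K) ∈ Hs σ K 0) a
  rw [mul_one, if_pos (Nat.zero_le _), Nat.sub_zero, ha, zero_mul, map_zero] at h1
  exact h1

lemma form_comp {e : ℕ} {q : MvPolynomial σ K →ₗ[K] K} (hq : IsForm e q) (a : MvPolynomial σ K) :
    q a = q (homogeneousComponent e a) := by
  rw [← sub_eq_zero, ← map_sub]
  apply form_zero hq
  rw [map_sub, homogeneousComponent_of_mem (homogeneousComponent_mem e a), if_pos rfl, sub_self]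

/-- the part of degree `< k` -/
noncomputable def lo (k : ℕ) (a : MvPolynomial σ K) : MvPolynomial σ K :=
  ∑ i ∈ Finset.range k, homogeneousComponent i a

lemma hc_lo (k l : ℕ) (a : MvPolynomial σ K) :
    homogeneousComponent l (lo k a) = if l < k then homogeneousComponent l a else 0 := by
  unfold lo
  rw [map_sum]
  have h1 : ∀ i ∈ Finset.range k, homogeneousComponent l (homogeneousComponent i a) =
      if i = l then homogeneousComponent l a else 0 := by
    intro i _
    rw [homogeneousComponent_of_mem (homogeneousComponent_mem i a)]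
    by_cases h : i = l
    · subst h
      simp
    · rw [if_neg (fun h' => h h'.symm), if_neg h]
  rw [Finset.sum_congr rfl h1, Finset.sum_ite_eq']
  simp

lemma ext_hc {a b : MvPolynomial σ K} (h : ∀ i, homogeneousComponent i a = homogeneousComponent i b) :
    a = b := by
  have h1 : a - b = 0 := by
    rw [← sum_homogeneousComponent (a - b)]
    apply Finset.sum_eq_zero
    intro i _
    rw [map_sub, h i, sub_self]
  exact sub_eq_zero.1 h1

end Tools

/-! ### induction over `R` -/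

section Rgs

variable {n m : ℕ} {K : Type} [Field K]

lemma inu_hs {k : ℕ} {a : Pu m K} (ha : a ∈ Hs (Fin m) K k) :
    inu n m K a ∈ Hs (Fin (n + 1) ⊕ Fin m) K k := IsHomogeneous.rename_isHomogeneous ha

lemma xx_hs (i : Fin (n + 1)) : xx n m K i ∈ Hs (Fin (n + 1) ⊕ Fin m) K 1 :=
  isHomogeneous_X K _

lemma mon_split (s : (Fin (n + 1) ⊕ Fin m) →₀ ℕ) (c : K) :
    (∃ t : Fin m →₀ ℕ, t.degree = s.degree ∧ monomial s c = inu n m K (monomial t c)) ∨
    ∃ (i : Fin (n + 1)) (s' : (Fin (n + 1) ⊕ Fin m) →₀ ℕ), s'.degree + 1 = s.degree ∧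
      monomial s c = xx n m K i * monomial s' c := by
  by_cases h : ∃ i, s (Sum.inl i) ≠ 0
  · right
    obtain ⟨i, hi⟩ := h
    have h1 : s = Finsupp.single (Sum.inl i) 1 + (s - Finsupp.single (Sum.inl i) 1) := by
      rw [add_tsub_cancel_of_le]
      rw [Finsupp.single_le_iff]
      omega
    refine ⟨i, s - Finsupp.single (Sum.inl i) 1, ?_, ?_⟩
    · conv_rhs => rw [h1]
      rw [map_add, Finsupp.degree_single]
      ring
    · conv_lhs => rw [h1]
      rw [xx, X, monomial_mul, one_mul]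
  · left
    push Not at h
    have h1 : Finsupp.mapDomain Sum.inr (Finsupp.comapDomain Sum.inr s
        (Sum.inr_injective.injOn)) = s := by
      apply Finsupp.mapDomain_comapDomain Sum.inr Sum.inr_injective
      intro v hv
      rcases v with v | v
      · exact absurd (h v) (Finsupp.mem_support_iff.1 hv)
      · exact ⟨v, rfl⟩
    refine ⟨Finsupp.comapDomain Sum.inr s (Sum.inr_injective.injOn), ?_, ?_⟩
    · conv_rhs => rw [← h1]
      rw [Finsupp.degree_mapDomain]
    · rw [inu, rename_monomial, h1]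

/-- decomposition of the forms of degree `k` of `R` by the degree in `x` -/
lemma rg_induction {k : ℕ} {P : Rg n m K → Prop} (h0 : P 0) (hadd : ∀ a b, P a → P b → P (a + b))
    (h1 : ∀ a ∈ Hs (Fin m) K k, P (inu n m K a))
    (h2 : ∀ i l, l + 1 = k → ∀ a ∈ Hs (Fin m) K l, P (xx n m K i * inu n m K a))
    (h3 : ∀ i j l, l + 2 = k → ∀ r ∈ Hs (Fin (n + 1) ⊕ Fin m) K l,
      P (xx n m K i * xx n m K j * r)) :
    ∀ r ∈ Hs (Fin (n + 1) ⊕ Fin m) K k, P r := by
  intro r hr
  rw [← support_sum_monomial_coeff r]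
  refine Finset.sum_induction _ P hadd h0 ?_
  intro s hs
  have hdeg : s.degree = k := by
    have := hr (mem_support_iff.1 hs)
    rwa [Finsupp.degree_eq_weight_one]
  rcases mon_split s (coeff s r) with ⟨t, ht, he⟩ | ⟨i, s', hs', he⟩
  · rw [he]
    apply h1
    exact isHomogeneous_monomial _ (by omega)
  · rw [he]
    rcases mon_split s' (coeff s r) with ⟨t, ht, he'⟩ | ⟨j, s'', hs'', he'⟩
    · rw [he']
      apply h2 i s'.degree (by omega)
      exact isHomogeneous_monomial _ (by omega)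
    · rw [he', ← mul_assoc]
      apply h3 i j s''.degree (by omega)
      exact isHomogeneous_monomial _ rfl

end Rgs

/-! ### the local functional -/

section Loc

variable {n m : ℕ} {K : Type} [Field K]

/-- `x_{i0} ↦ 1`, `x_j ↦ 0`, `u ↦ u` -/
noncomputable def p0 (i0 : Fin (n + 1)) : Rg n m K →ₐ[K] Pu m K :=
  aeval (Sum.elim (fun i => if i = i0 then 1 else 0) X)

/-- the coefficient of `x_j` after `x_{i0} ↦ 1` -/
noncomputable def pj (i0 j : Fin (n + 1)) : Rg n m K →ₗ[K] Pu m K :=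
  if j = i0 then 0 else (p0 i0).toLinearMap ∘ₗ (pderiv (Sum.inl j)).toLinearMap

lemma pj_self (i0 : Fin (n + 1)) (r : Rg n m K) : pj i0 i0 r = 0 := by
  unfold pj
  rw [if_pos rfl]
  rfl

lemma pj_ne {i0 j : Fin (n + 1)} (h : j ≠ i0) (r : Rg n m K) :
    pj i0 j r = p0 i0 (pderiv (Sum.inl j) r) := by
  unfold pj
  rw [if_neg h]
  rfl

lemma p0_x (i0 i : Fin (n + 1)) : p0 i0 (xx n m K i) = if i = i0 then 1 else 0 := by
  unfold p0 xx
  rw [aeval_X]
  rfl

lemma p0_inu (i0 : Fin (n + 1)) (a : Pu m K) : p0 i0 (inu n m K a) = a := by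
  unfold p0 inu
  rw [aeval_rename]
  have : (Sum.elim (fun i => if i = i0 then (1 : Pu m K) else 0) X) ∘ Sum.inr = X := rfl
  rw [this, aeval_X_left]
  rfl

lemma pj_mul (i0 j : Fin (n + 1)) (r s : Rg n m K) :
    pj i0 j (r * s) = p0 i0 r * pj i0 j s + p0 i0 s * pj i0 j r := by
  by_cases h : j = i0
  · subst h
    rw [pj_self, pj_self, pj_self]
    ring
  · rw [pj_ne h, pj_ne h, pj_ne h, Derivation.leibniz, map_add, smul_eq_mul, smul_eq_mul, map_mul,
      map_mul]

lemma pj_x (i0 j i : Fin (n + 1)) :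
    pj i0 j (xx n m K i) = if j ≠ i0 ∧ j = i then 1 else 0 := by
  by_cases h : j = i0
  · subst h
    rw [pj_self, if_neg (by simp)]
  · rw [pj_ne h, xx, pderiv_X, Pi.single_apply]
    by_cases hi : j = i
    · subst hi
      rw [if_pos rfl, if_pos ⟨h, rfl⟩, map_one]
    · rw [if_neg (by simpa using fun h' => hi h'.symm), if_neg (fun h' => hi h'.2), map_zero]

lemma pj_inu (i0 j : Fin (n + 1)) (a : Pu m K) : pj i0 j (inu n m K a) = 0 := by
  by_cases h : j = i0
  · subst h
    rw [pj_self]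
  · rw [pj_ne h]
    have : pderiv (Sum.inl j) (inu n m K a) = 0 := by
      apply pderiv_eq_zero_of_notMem_vars
      intro hv
      have := vars_rename (Sum.inr : Fin m → Fin (n + 1) ⊕ Fin m) a hv
      simp at this
    rw [this, map_zero]

lemma pj_x0_mul (i0 j : Fin (n + 1)) (r : Rg n m K) :
    pj i0 j (xx n m K i0 * r) = pj i0 j r := by
  rw [pj_mul, p0_x, if_pos rfl, pj_x, if_neg (fun h => h.1 h.2)]
  ring

lemma p0_x0_mul (i0 : Fin (n + 1)) (r : Rg n m K) : p0 i0 (xx n m K i0 * r) = p0 i0 r := by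
  rw [map_mul, p0_x, if_pos rfl, one_mul]

lemma pj_x0_pow (i0 j : Fin (n + 1)) (r : Rg n m K) (k : ℕ) :
    pj i0 j (xx n m K i0 ^ k * r) = pj i0 j r := by
  induction k with
  | zero => simp
  | succ k ih => rw [pow_succ', mul_assoc, pj_x0_mul, ih]

lemma p0_x0_pow (i0 : Fin (n + 1)) (r : Rg n m K) (k : ℕ) :
    p0 i0 (xx n m K i0 ^ k * r) = p0 i0 r := by
  induction k with
  | zero => simp
  | succ k ih => rw [pow_succ', mul_assoc, p0_x0_mul, ih]

/-- homogenisation of an element of `P` of degree `≤ k` -/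
noncomputable def lift (i0 : Fin (n + 1)) (k : ℕ) (a : Pu m K) : Rg n m K :=
  ∑ i ∈ Finset.range (k + 1), xx n m K i0 ^ (k - i) * inu n m K (homogeneousComponent i a)

lemma lift_hs (i0 : Fin (n + 1)) (k : ℕ) (a : Pu m K) :
    lift (n := n) i0 k a ∈ Hs (Fin (n + 1) ⊕ Fin m) K k := by
  apply Submodule.sum_mem
  intro i hi
  have := hs_mul (hs_pow (xx_hs (m := m) (K := K) i0) (k - i))
    (inu_hs (n := n) (homogeneousComponent_mem i a))
  rwa [Nat.sub_add_cancel (by rw [Finset.mem_range] at hi; omega)] at this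

lemma p0_lift (i0 : Fin (n + 1)) (k : ℕ) (a : Pu m K)
    (ha : ∀ l, k < l → homogeneousComponent l a = 0) : p0 i0 (lift i0 k a) = a := by
  unfold lift
  rw [map_sum]
  simp_rw [p0_x0_pow, p0_inu]
  apply ext_hc
  intro l
  have := hc_lo (k + 1) l a
  unfold lo at this
  rw [this]
  split_ifs with h
  · rfl
  · rw [ha l (by omega)]

lemma pj_lift (i0 j : Fin (n + 1)) (k : ℕ) (a : Pu m K) : pj i0 j (lift i0 k a) = 0 := by
  unfold lift
  rw [map_sum]
  simp_rw [pj_x0_pow, pj_inu]
  simp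

/-- elements of `R_k` with given images -/
lemma exists_lift (i0 : Fin (n + 1)) (k : ℕ) (a : Pu m K) (b : Fin (n + 1) → Pu m K)
    (ha : ∀ l, k + 1 < l → homogeneousComponent l a = 0)
    (hb : ∀ j l, k < l → homogeneousComponent l (b j) = 0) :
    ∃ r ∈ Hs (Fin (n + 1) ⊕ Fin m) K (k + 1), p0 i0 r = a ∧ ∀ j, j ≠ i0 → pj i0 j r = b j := by
  refine ⟨lift i0 (k + 1) a + ∑ j ∈ Finset.univ.erase i0, xx n m K j * lift i0 k (b j), ?_, ?_, ?_⟩
  · apply Submodule.add_mem _ (lift_hs i0 _ a)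
    apply Submodule.sum_mem
    intro j _
    have := hs_mul (xx_hs (m := m) (K := K) j) (lift_hs (n := n) i0 k (b j))
    rwa [Nat.add_comm 1 k] at this
  · rw [map_add, p0_lift i0 _ a ha, map_sum]
    rw [Finset.sum_eq_zero, add_zero]
    intro j hj
    rw [map_mul, p0_x, if_neg (Finset.ne_of_mem_erase hj), zero_mul]
  · intro j hj
    rw [map_add, pj_lift, zero_add, map_sum]
    have h1 : ∀ j' ∈ Finset.univ.erase i0, pj i0 j (xx n m K j' * lift i0 k (b j')) =
        if j' = j then b j else 0 := by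
      intro j' hj'
      rw [pj_mul, pj_lift, mul_zero, zero_add, pj_x, p0_lift i0 k _ (hb j')]
      by_cases h : j' = j
      · subst h
        rw [if_pos ⟨hj, rfl⟩, if_pos rfl, mul_one]
      · rw [if_neg (fun h' => h h'.2.symm), if_neg h, mul_zero]
    rw [Finset.sum_congr rfl h1, Finset.sum_ite_eq', if_pos (by simp [hj])]

/-- the functional of the local algebra -/
noncomputable def ff (i0 : Fin (n + 1)) (p : Fin (n + 1) → (Pu m K →ₗ[K] K)) (g : Pu m K →ₗ[K] K) :
    Rg n m K →ₗ[K] K :=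
  (g + p i0) ∘ₗ (p0 i0).toLinearMap + ∑ j, p j ∘ₗ pj i0 j

lemma ff_apply (i0 : Fin (n + 1)) (p : Fin (n + 1) → (Pu m K →ₗ[K] K)) (g : Pu m K →ₗ[K] K)
    (r : Rg n m K) : ff i0 p g r = g (p0 i0 r) + p i0 (p0 i0 r) + ∑ j, p j (pj i0 j r) := by
  unfold ff
  simp

lemma ff_mul (i0 : Fin (n + 1)) (p : Fin (n + 1) → (Pu m K →ₗ[K] K)) (g : Pu m K →ₗ[K] K)
    (r s : Rg n m K) : ff i0 p g (r * s) = g (p0 i0 r * p0 i0 s) + p i0 (p0 i0 r * p0 i0 s) +
      ∑ j, p j (pj i0 j r * p0 i0 s) + ∑ j, p j (p0 i0 r * pj i0 j s) := by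
  rw [ff_apply, map_mul]
  simp_rw [pj_mul, map_add]
  rw [Finset.sum_add_distrib]
  simp_rw [mul_comm (p0 i0 s)]
  ring

lemma eqv_of (i0 : Fin (n + 1)) (p : Fin (n + 1) → (Pu m K →ₗ[K] K)) (g : Pu m K →ₗ[K] K)
    (r r' : Rg n m K)
    (h1 : ∀ j, j ≠ i0 → ∀ t, p j ((p0 i0 r - p0 i0 r') * t) = 0)
    (h2 : ∀ t, g ((p0 i0 r - p0 i0 r') * t) + p i0 ((p0 i0 r - p0 i0 r') * t) +
      ∑ j, p j ((pj i0 j r - pj i0 j r') * t) = 0) : Eqv (ff i0 p g) r r' := by
  intro s
  rw [ff_mul, map_sub]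
  simp_rw [map_sub (pj i0 _)]
  rw [h2, zero_add]
  apply Finset.sum_eq_zero
  intro j _
  by_cases hj : j = i0
  · subst hj
    rw [pj_self, mul_zero, map_zero]
  · exact h1 j hj _

end Loc

end Pool.Agent.PZD
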