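import Pool.Agent.PZD.Frame

/-!
# PZD: the map `Ann F → Omega` is surjective; the doubling
-/

set_option autoImplicit false

namespace Pool.Agent.PZD

open MvPolynomial

variable {σ : Type} {K : Type} [Field K]
variable {F f : MvPolynomial σ K →ₗ[K] K} {l : MvPolynomial σ K} {d : ℕ}

lemma Good.rep [Finite σ] (h : Good F f l d) (ν : Hs σ K d →ₗ[K] K)
    (hν : ∀ s : Hs σ K d, (∀ a, f (a * s.1) = 0) → ν s = 0) :
    ∃ a ∈ Hs σ K d, ∀ s : Hs σ K d, ν s = f (a * s.1) := by
  have hfin : FiniteDimensional K (Hs σ K d) :=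
    Module.Finite.iff_fg.2 (homogeneousSubmodule_fg σ K d)
  let B : Hs σ K d →ₗ[K] Hs σ K d →ₗ[K] K :=
    ((LinearMap.mul K (MvPolynomial σ K)).compr₂ f).domRestrict₁₂ (Hs σ K d) (Hs σ K d)
  have hB : ∀ a s, B a s = f (a.1 * s.1) := fun a s => rfl
  have h1 : ν ∈ Submodule.span K (Set.range B) := by
    apply FiniteDimensional.mem_span_of_iInf_ker_le_ker
    intro s hs
    rw [LinearMap.mem_ker]
    apply hν
    intro a
    obtain ⟨a', ha', hE⟩ := h.full a
    rw [hE.ap s.1]
    have h2 := (Submodule.mem_iInf _).1 hs ⟨a', ha'⟩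
    rw [LinearMap.mem_ker, hB] at h2
    exact h2
  rw [← LinearMap.coe_range, Submodule.span_eq] at h1
  obtain ⟨a, ha⟩ := h1
  refine ⟨a.1, a.2, fun s => ?_⟩
  rw [← ha, hB]

lemma Good.bound [Finite σ] (L : MvPolynomial σ K →ₗ[K] Polynomial K) (d : ℕ) :
    ∃ D : ℕ, ∀ s ∈ Hs σ K d, ∀ k, D ≤ k → (L s).coeff k = 0 := by
  obtain ⟨S, hS⟩ := homogeneousSubmodule_fg σ K d
  refine ⟨(S.sup fun s => (L s).natDegree) + 1, ?_⟩
  intro s hs k hk
  change s ∈ homogeneousSubmodule σ K d at hs
  rw [← hS] at hs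
  induction hs using Submodule.span_induction with
  | mem x hx =>
    apply Polynomial.coeff_eq_zero_of_natDegree_lt
    have : (L x).natDegree ≤ S.sup fun s => (L s).natDegree :=
      Finset.le_sup (f := fun s => (L s).natDegree) hx
    omega
  | zero => simp
  | add x y _ _ hx hy => rw [map_add, Polynomial.coeff_add, hx, hy, add_zero]
  | smul c x _ hx => rw [map_smul, Polynomial.coeff_smul, hx, smul_zero]

lemma omega_pow {J : Ideal (MvPolynomial σ K)} (L : Omega J l) (k : ℕ) (s : MvPolynomial σ K) :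
    L.1 (l ^ k * s) = Polynomial.X ^ k * L.1 s := by
  induction k with
  | zero => simp
  | succ k ih => rw [pow_succ', mul_assoc, L.2.2, ih, pow_succ']; ring

/-- elements of degree `> d` modulo the ideal -/
lemma Good.red (h : Good F f l d) {j : ℕ} (hj : d ≤ j) {s : MvPolynomial σ K}
    (hs : s ∈ Hs σ K j) : ∃ s' ∈ Hs σ K d, s - l ^ (j - d) * s' ∈ core f := by
  obtain ⟨s', hs', hE⟩ := h.full s
  refine ⟨s', hs', ?_⟩
  have h1 : l ^ (j - d) * s' ∈ Hs σ K j := by
    have := hs_mul (hs_pow h.lin (j - d)) hs'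
    rwa [Nat.sub_add_cancel hj] at this
  apply mem_core_of_hs (Submodule.sub_mem _ hs h1)
  intro t
  rw [sub_mul, map_sub, mul_assoc, h.pow, hE.ap, sub_self]

/-- two elements of `Omega` which agree in degree `d` are equal -/
lemma Good.ext_deg (h : Good F f l d) (L M : Omega (core f) l)
    (hLM : ∀ s ∈ Hs σ K d, L.1 s = M.1 s) (s : MvPolynomial σ K) : L.1 s = M.1 s := by
  induction s using hs_induction with
  | h0 => simp
  | hadd a b ha hb => rw [map_add, map_add, ha, hb]
  | hs j s hs =>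
    rcases le_or_gt j d with hj | hj
    · have h1 : l ^ (d - j) * s ∈ Hs σ K d := by
        have := hs_mul (hs_pow h.lin (d - j)) hs
        rwa [Nat.sub_add_cancel hj] at this
      have h2 := hLM _ h1
      rw [omega_pow, omega_pow] at h2
      exact mul_left_cancel₀ (pow_ne_zero _ Polynomial.X_ne_zero) h2
    · obtain ⟨s', hs', hc⟩ := h.red hj.le hs
      have h1 := L.2.1 _ hc
      have h2 := M.2.1 _ hc
      rw [map_sub, omega_pow, sub_eq_zero] at h1 h2
      rw [h1, h2, hLM s' hs']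

theorem Good.surj [Finite σ] (h : Good F f l d) (L : Omega (core f) l) :
    ∃ r : Ann F, ∀ s, (h.Lam r).1 s = L.1 s := by
  obtain ⟨D, hD⟩ := Good.bound L.1 d
  -- representing elements of degree d
  have h1 : ∀ k : ℕ, ∃ a ∈ Hs σ K d, ∀ s ∈ Hs σ K d, (L.1 s).coeff k = f (a * s) := by
    intro k
    let ν : Hs σ K d →ₗ[K] K := (Polynomial.lcoeff K k) ∘ₗ L.1 ∘ₗ (Hs σ K d).subtype
    have hν : ∀ s, ν s = (L.1 s.1).coeff k := fun s => rfl
    obtain ⟨a, ha, hA⟩ := h.rep ν (by
      intro s hs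
      rw [hν]
      have : s.1 ∈ core f := mem_core_of_hs s.2 (fun t => by rw [mul_comm]; exact hs t)
      rw [L.2.1 _ this, Polynomial.coeff_zero])
    exact ⟨a, ha, fun s hs => hA ⟨s, hs⟩⟩
  have key : ∀ k : ℕ, ∀ a ∈ Hs σ K d, (∀ s ∈ Hs σ K d, (L.1 s).coeff k = f (a * s)) →
      ∀ j, j + k + 1 = d → ∀ s ∈ Hs σ K j, f (a * s) = 0 := by
    intro k a ha hA j hj s hs
    have h2 : l ^ (k + 1) * s ∈ Hs σ K d := by
      have := hs_mul (hs_pow h.lin (k + 1)) hs
      rwa [show k + 1 + j = d by omega] at this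
    have h3 := hA _ h2
    rw [omega_pow, show a * (l ^ (k + 1) * s) = l ^ (k + 1) * (a * s) by ring, h.pow] at h3
    rw [← h3, Polynomial.coeff_X_pow_mul', if_neg (by omega)]
  -- representing elements of degree k+1
  have h2 : ∀ k : ℕ, ∃ r ∈ Hs σ K (k + 1), (∀ s ∈ Hs σ K d, (L.1 s).coeff k = f (r * s)) ∧
      r ∈ Ann F := by
    intro k
    obtain ⟨a, ha, hA⟩ := h1 k
    have h3 : ∃ r ∈ Hs σ K (k + 1), Eqv f a r := by
      rcases lt_or_ge k d with hk | hk
      · obtain ⟨r, hr, hE⟩ := h.orth (d - k - 1) (by omega) a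
          (fun s hs => key k a ha hA (d - k - 1) (by omega) s hs)
        refine ⟨r, ?_, hE⟩
        rwa [show d - (d - k - 1) = k + 1 by omega] at hr
      · refine ⟨l ^ (k + 1 - d) * a, ?_, ?_⟩
        · have := hs_mul (hs_pow h.lin (k + 1 - d)) ha
          rwa [show k + 1 - d + d = k + 1 by omega] at this
        · apply Eqv.of
          intro s
          rw [mul_assoc, h.pow]
    obtain ⟨r, hr, hE⟩ := h3
    refine ⟨r, hr, fun s hs => by rw [hA s hs, hE.ap], ?_⟩
    intro s
    induction s using hs_induction with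
    | h0 => simp
    | hadd a b ha hb => rw [mul_add, map_add, ha, hb, add_zero]
    | hs j s hs =>
      by_cases hj : k + 1 + j = d
      · have h4 : r * s ∈ Hs σ K d := by
          have := hs_mul hr hs
          rwa [hj] at this
        rw [← h.top _ h4, ← hE.ap]
        exact key k a ha hA j (by omega) s hs
      · exact h.form _ hj _ (hs_mul hr hs)
  choose r hr hL hI using h2
  refine ⟨⟨∑ k ∈ Finset.range D, r k, Submodule.sum_mem _ fun k _ => hI k⟩, ?_⟩
  apply h.ext_deg
  intro s hs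
  rw [h.Lam_apply]
  ext k
  rw [Tm_coeff]
  simp only
  rw [Finset.sum_mul, map_sum, map_sum]
  have h3 : ∀ k' ∈ Finset.range D, f (homogeneousComponent (k + d + 1) (r k' * s)) =
      if k' = k then f (r k * s) else 0 := by
    intro k' _
    rw [homogeneousComponent_of_mem (hs_mul (hr k') hs)]
    by_cases hk : k' = k
    · subst hk
      rw [if_pos (by omega), if_pos rfl]
    · rw [if_neg (by omega), if_neg hk, map_zero]
  rw [Finset.sum_congr rfl h3, Finset.sum_ite_eq']
  split_ifs with hk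
  · exact (hL k s hs).symm
  · rw [Finset.mem_range, not_lt] at hk
    exact (hD s hs k hk).symm

end Pool.Agent.PZD
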