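import Pool.Agent.PZD.Crit

/-!
# PZD: linear changes of coordinates and the criterion for a hyperplane of `W`
-/

set_option autoImplicit false

namespace Pool.Agent.PZD

open MvPolynomial

section

variable {σ : Type} {K : Type} [Field K]
variable {F f : MvPolynomial σ K →ₗ[K] K} {l : MvPolynomial σ K} {d : ℕ}

theorem Good.transport (h : Good F f l d) (τ : MvPolynomial σ K ≃ₐ[K] MvPolynomial σ K)
    (h1 : ∀ k, ∀ r ∈ Hs σ K k, τ r ∈ Hs σ K k) (h2 : ∀ k, ∀ r ∈ Hs σ K k, τ.symm r ∈ Hs σ K k) :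
    Good (F ∘ₗ τ.toLinearMap) (f ∘ₗ τ.toLinearMap) (τ.symm l) d where
  form := by
    intro k hk r hr
    exact h.form k hk _ (h1 k r hr)
  ne := by
    obtain ⟨r, hr⟩ := h.ne
    refine ⟨τ.symm r, ?_⟩
    change F (τ (τ.symm r)) ≠ 0
    rwa [AlgEquiv.apply_symm_apply]
  lin := h2 1 l h.lin
  one := by
    intro r
    change f (τ (τ.symm l * r)) = f (τ r)
    rw [map_mul, AlgEquiv.apply_symm_apply, h.one]
  top := by
    intro r hr
    exact h.top _ (h1 d r hr)
  full := by
    intro r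
    obtain ⟨r', hr', hE⟩ := h.full (τ r)
    refine ⟨τ.symm r', h2 d r' hr', ?_⟩
    intro s
    change f (τ ((r - τ.symm r') * s)) = 0
    rw [map_mul, map_sub, AlgEquiv.apply_symm_apply]
    exact hE _
  orth := by
    intro i hi r hr
    obtain ⟨r', hr', hE⟩ := h.orth i hi (τ r) (by
      intro s hs
      have h3 := hr (τ.symm s) (h2 i s hs)
      change f (τ (r * τ.symm s)) = 0 at h3
      rwa [map_mul, AlgEquiv.apply_symm_apply] at h3)
    refine ⟨τ.symm r', h2 _ r' hr', ?_⟩
    intro s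
    change f (τ ((r - τ.symm r') * s)) = 0
    rw [map_mul, map_sub, AlgEquiv.apply_symm_apply]
    exact hE _

lemma aeval_hs {v : σ → MvPolynomial σ K} (hv : ∀ i, v i ∈ Hs σ K 1) (k : ℕ)
    (r : MvPolynomial σ K) (hr : r ∈ Hs σ K k) : aeval v r ∈ Hs σ K k := by
  have := IsHomogeneous.aeval hr v hv
  rwa [one_mul] at this

end

section

variable {n m : ℕ} {K : Type} [Field K]

/-- images of the variables under a change of coordinates in `x` -/
noncomputable def vx (i0 : Fin (n + 1)) (θ : Fin (n + 1) → K) :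
    Fin (n + 1) ⊕ Fin m → Rg n m K :=
  Sum.elim (fun j => X (Sum.inl j) + C (θ j) * X (Sum.inl i0)) (fun j => X (Sum.inr j))

lemma vx_hs (i0 : Fin (n + 1)) (θ : Fin (n + 1) → K) (i : Fin (n + 1) ⊕ Fin m) :
    vx i0 θ i ∈ Hs (Fin (n + 1) ⊕ Fin m) K 1 := by
  rcases i with i | i
  · apply Submodule.add_mem
    · exact isHomogeneous_X K _
    · have := hs_mul (isHomogeneous_C (Fin (n + 1) ⊕ Fin m) (θ i) :
        (C (θ i) : Rg n m K) ∈ Hs (Fin (n + 1) ⊕ Fin m) K 0)
        (isHomogeneous_X K (Sum.inl i0) : (X (Sum.inl i0) : Rg n m K) ∈ _)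
      rwa [Nat.zero_add] at this
  · exact isHomogeneous_X K _

lemma vx_comp (i0 : Fin (n + 1)) (θ : Fin (n + 1) → K) (h0 : θ i0 = 0) :
    (aeval (vx i0 θ)).comp (aeval (vx (m := m) i0 (-θ))) = AlgHom.id K (Rg n m K) := by
  apply MvPolynomial.algHom_ext
  intro i
  rcases i with i | i
  · simp [vx, h0, algebraMap_eq]
  · simp [vx]

/-- the change of coordinates in `x` -/
noncomputable def tx (i0 : Fin (n + 1)) (θ : Fin (n + 1) → K) (h0 : θ i0 = 0) :
    Rg n m K ≃ₐ[K] Rg n m K :=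
  AlgEquiv.ofAlgHom (aeval (vx i0 (-θ))) (aeval (vx i0 θ))
    (by
      have := vx_comp (m := m) i0 (-θ) (by simp [h0])
      rwa [neg_neg] at this)
    (vx_comp (m := m) i0 θ h0)

/-- images of the variables under a change of coordinates in `u` -/
noncomputable def vu (c : Fin (n + 1) → Fin m → K) : Fin (n + 1) ⊕ Fin m → Rg n m K :=
  Sum.elim (fun j => X (Sum.inl j)) (fun j => X (Sum.inr j) + ∑ i, C (c i j) * X (Sum.inl i))

lemma vu_hs (c : Fin (n + 1) → Fin m → K) (i : Fin (n + 1) ⊕ Fin m) :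
    vu c i ∈ Hs (Fin (n + 1) ⊕ Fin m) K 1 := by
  rcases i with i | i
  · exact isHomogeneous_X K _
  · apply Submodule.add_mem
    · exact isHomogeneous_X K _
    · apply Submodule.sum_mem
      intro j _
      have := hs_mul (isHomogeneous_C (Fin (n + 1) ⊕ Fin m) (c j i) :
        (C (c j i) : Rg n m K) ∈ Hs (Fin (n + 1) ⊕ Fin m) K 0)
        (isHomogeneous_X K (Sum.inl j) : (X (Sum.inl j) : Rg n m K) ∈ _)
      rwa [Nat.zero_add] at this

lemma vu_comp (c : Fin (n + 1) → Fin m → K) :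
    (aeval (vu c)).comp (aeval (vu (-c))) = AlgHom.id K (Rg n m K) := by
  apply MvPolynomial.algHom_ext
  intro i
  rcases i with i | i
  · simp [vu]
  · simp [vu, algebraMap_eq, map_sum, Finset.sum_neg_distrib]

/-- the change of coordinates in `u` -/
noncomputable def tu (c : Fin (n + 1) → Fin m → K) : Rg n m K ≃ₐ[K] Rg n m K :=
  AlgEquiv.ofAlgHom (aeval (vu c)) (aeval (vu (-c))) (vu_comp c)
    (by
      have := vu_comp (m := m) (-c)
      rwa [neg_neg] at this)

variable {d : ℕ} {p : Fin (n + 1) → (Pu m K →ₗ[K] K)} {g : Pu m K →ₗ[K] K}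
variable {F : Rg n m K →ₗ[K] K}

/-- `q` kills the hyperplane of `W` given by `θ` -/
def KT (θ : Fin (n + 1) → K) (p : Fin (n + 1) → (Pu m K →ₗ[K] K)) (q : Pu m K) : Prop :=
  ∀ i j r, θ i * p j (q * r) = θ j * p i (q * r)

/-- `q` kills `W` -/
def KA (p : Fin (n + 1) → (Pu m K →ₗ[K] K)) (q : Pu m K) : Prop := ∀ i r, p i (q * r) = 0

/-- the condition for the hyperplane `θ` -/
def HT (d : ℕ) (θ : Fin (n + 1) → K) (p : Fin (n + 1) → (Pu m K →ₗ[K] K)) (g : Pu m K →ₗ[K] K) :
    Prop :=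
  ∀ k, 1 ≤ k → k ≤ d → ∀ q ∈ Hs (Fin m) K k, KT θ p q →
    (∀ t ∈ Hs (Fin m) K (d - k), KA p t → g (q * t) = 0) →
    ∃ ν ∈ Hs (Fin m) K k, KA p ν ∧
      ∀ t ∈ Hs (Fin m) K (d - k), KT θ p t → g ((q + ν) * t) = 0

lemma IsPerazzo.tx (hF : IsPerazzo d F p g) (i0 : Fin (n + 1)) (θ : Fin (n + 1) → K)
    (h0 : θ i0 = 0) :
    IsPerazzo d (F ∘ₗ (tx (m := m) i0 θ h0).toLinearMap) (fun j => p j - θ j • p i0) g := by
  have hinu : ∀ r, PZD.tx (m := m) i0 θ h0 (inu n m K r) = inu n m K r := by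
    intro r
    change aeval (vx i0 (-θ)) (rename Sum.inr r) = _
    rw [aeval_rename]
    have h1 : (vx (m := m) i0 (-θ)) ∘ Sum.inr = X ∘ Sum.inr := rfl
    rw [h1, ← aeval_rename, aeval_X_left_apply]
  have hx : ∀ j, PZD.tx (m := m) i0 θ h0 (xx n m K j) = xx n m K j - C (θ j) * xx n m K i0 := by
    intro j
    change aeval (vx i0 (-θ)) (X (Sum.inl j)) = _
    rw [aeval_X]
    simp [vx, sub_eq_add_neg]
  have hC : ∀ (c : K) (r : Rg n m K), F (C c * r) = c * F r := by
    intro c r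
    rw [C_mul', map_smul, smul_eq_mul]
  refine ⟨?_, hF.hg, ?_, ?_, ?_, ?_⟩
  · intro i k hk r hr
    rw [LinearMap.sub_apply, LinearMap.smul_apply, hF.hp i k hk r hr, hF.hp i0 k hk r hr]
    simp
  · rw [Fintype.linearIndependent_iff]
    intro a ha
    have h1 := Fintype.linearIndependent_iff.1 hF.indep
      (fun j => a j - if j = i0 then ∑ i, a i * θ i else 0) (by
        simp_rw [sub_smul, ite_smul, zero_smul]
        rw [Finset.sum_sub_distrib, Finset.sum_ite_eq', if_pos (Finset.mem_univ _),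
          Finset.sum_smul]
        simp_rw [smul_sub, smul_smul] at ha
        rw [Finset.sum_sub_distrib] at ha
        exact ha)
    have h2 : ∀ j, j ≠ i0 → a j = 0 := by
      intro j hj
      have := h1 j
      rwa [if_neg hj, sub_zero] at this
    intro j
    by_cases hj : j = i0
    · subst hj
      have h3 := h1 j
      rw [if_pos rfl, Finset.sum_eq_zero, sub_zero] at h3
      · exact h3
      · intro i _
        by_cases hi : i = j
        · subst hi
          rw [h0, mul_zero]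
        · rw [h2 i hi, zero_mul]
    · exact h2 j hj
  · intro i j r
    change F (PZD.tx (m := m) i0 θ h0 (xx n m K i * xx n m K j * r)) = 0
    rw [map_mul (PZD.tx (m := m) i0 θ h0), map_mul (PZD.tx (m := m) i0 θ h0), hx, hx]
    have h1 : (xx n m K i - C (θ i) * xx n m K i0) * (xx n m K j - C (θ j) * xx n m K i0) *
        PZD.tx (m := m) i0 θ h0 r = xx n m K i * xx n m K j * PZD.tx (m := m) i0 θ h0 r
        - C (θ j) * (xx n m K i * xx n m K i0 * PZD.tx (m := m) i0 θ h0 r)
        - C (θ i) * (xx n m K i0 * xx n m K j * PZD.tx (m := m) i0 θ h0 r)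
        + C (θ i) * (C (θ j) * (xx n m K i0 * xx n m K i0 * PZD.tx (m := m) i0 θ h0 r)) := by ring
    rw [h1, map_add, map_sub, map_sub, hC, hC, hC, hC, hF.quad, hF.quad, hF.quad, hF.quad]
    ring
  · intro i r
    change F (PZD.tx (m := m) i0 θ h0 (xx n m K i * inu n m K r)) = _
    rw [map_mul (PZD.tx (m := m) i0 θ h0), hx, hinu, sub_mul, map_sub, mul_assoc, hC, hF.lin,
      hF.lin]
    rfl
  · intro r
    change F (PZD.tx (m := m) i0 θ h0 (inu n m K r)) = _
    rw [hinu, hF.const]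

/-- the criterion -/
theorem IsPerazzo.doubling (hF : IsPerazzo d F p g) (hd : 1 ≤ d) (θ : Fin (n + 1) → K)
    (hθ : θ ≠ 0) (h : HT d θ p g) : IsDoublingOfPoints (Ann F) := by
  obtain ⟨i0, hi0⟩ : ∃ i0, θ i0 ≠ 0 := by
    by_contra hne
    push Not at hne
    exact hθ (funext hne)
  let θ' : Fin (n + 1) → K := fun j => if j = i0 then 0 else θ j / θ i0
  have h0 : θ' i0 = 0 := if_pos rfl
  have h1 : ∀ j, j ≠ i0 → θ' j = θ j / θ i0 := fun j hj => if_neg hj
  have hF' := hF.tx i0 θ' h0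
  have hKT : ∀ q, (∀ j, j ≠ i0 → ∀ r, (fun j => p j - θ' j • p i0) j (q * r) = 0) ↔ KT θ p q := by
    intro q
    constructor
    · intro hq
      have h2 : ∀ j r, p j (q * r) = θ j / θ i0 * p i0 (q * r) := by
        intro j r
        by_cases hj : j = i0
        · subst hj
          rw [div_self hi0, one_mul]
        · have := hq j hj r
          simp only [LinearMap.sub_apply, LinearMap.smul_apply, smul_eq_mul, sub_eq_zero] at this
          rw [this, h1 j hj]
      intro i j r
      rw [h2 i, h2 j]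
      ring
    · intro hq j hj r
      simp only [LinearMap.sub_apply, LinearMap.smul_apply, smul_eq_mul, sub_eq_zero]
      rw [h1 j hj]
      have := hq i0 j r
      field_simp
      linear_combination this
  have hKA : ∀ q, (∀ j r, (fun j => p j - θ' j • p i0) j (q * r) = 0) ↔ KA p q := by
    intro q
    constructor
    · intro hq
      have h2 : ∀ r, p i0 (q * r) = 0 := by
        intro r
        have := hq i0 r
        simpa [h0] using this
      intro j r
      have := hq j r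
      simp only [LinearMap.sub_apply, LinearMap.smul_apply, h2, smul_zero, sub_zero] at this
      exact this
    · intro hq j r
      simp only [LinearMap.sub_apply, LinearMap.smul_apply]
      rw [hq, hq, smul_zero, sub_zero]
  have hP : HP d i0 (fun j => p j - θ' j • p i0) g := by
    intro k hk1 hkd q hq hq1 hq2
    obtain ⟨ν, hν, hν1, hν2⟩ := h k hk1 hkd q hq ((hKT q).1 hq1)
      (fun t ht hk => hq2 t ht ((hKA t).2 hk))
    exact ⟨ν, hν, (hKA ν).2 hν1, fun t ht hk => hν2 t ht ((hKT t).1 hk)⟩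
  have h2 := (hF'.good hd i0 hP).transport (PZD.tx (m := m) i0 θ' h0).symm
    (fun k r hr => aeval_hs (vx_hs i0 _) k r hr) (fun k r hr => aeval_hs (vx_hs i0 _) k r hr)
  have h3 : (F ∘ₗ (PZD.tx (m := m) i0 θ' h0).toLinearMap) ∘ₗ
      (PZD.tx (m := m) i0 θ' h0).symm.toLinearMap = F := by
    apply LinearMap.ext
    intro r
    change F (PZD.tx (m := m) i0 θ' h0 ((PZD.tx (m := m) i0 θ' h0).symm r)) = F r
    rw [AlgEquiv.apply_symm_apply]
  rw [h3] at h2
  exact h2.doubling

end

end Pool.Agent.PZD
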