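import Mathlib

/-!
# PZD: binary forms, univariate version
-/

set_option autoImplicit false

namespace Pool.Agent.PZD

open Polynomial

variable {K : Type} [Field K]

/-- the form of degree `α` given by the polynomial `a` kills the functional `w` in degree `N` -/
def Kl (N : ℕ) (w : K[X] →ₗ[K] K) (α : ℕ) (a : K[X]) : Prop :=
  ∀ r : K[X], α + r.natDegree ≤ N → w (a * r) = 0

lemma Kl.mono_mul {N : ℕ} {w : K[X] →ₗ[K] K} {γ α : ℕ} {g e : K[X]} (h : Kl N w γ g)
    (he : γ + e.natDegree ≤ α) : Kl N w α (g * e) := by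
  intro r hr
  rw [mul_assoc]
  apply h
  have := natDegree_mul_le (p := e) (q := r)
  omega

/-- the greatest common divisor of two killers is a killer; one half -/
lemma gcd_aux {N : ℕ} {w : K[X] →ₗ[K] K} {α β : ℕ} {g a' c' : K[X]} (hg : g ≠ 0) (ha' : a' ≠ 0)
    (hcop : IsCoprime a' c') (hα : (g * a').natDegree ≤ α)
    (hαβ : α + β ≤ N + 1) (ha : Kl N w α (g * a')) (hc : Kl N w β (g * c'))
    (hμ : c'.natDegree + α ≤ β + a'.natDegree) :
    Kl N w (α - a'.natDegree) g := by
  classical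
  rw [natDegree_mul hg ha'] at hα
  intro r hr
  obtain ⟨u, v, huv⟩ := hcop
  set y := (r * v) % a' with hy
  set s := (r * v) / a' with hs
  have h1 : a' * s + y = r * v := EuclideanDomain.div_add_mod _ _
  set x := r * u + s * c' with hx
  have h2 : g * r = g * a' * x + g * c' * y := by
    have : y = r * v - a' * s := by rw [← h1]; ring
    rw [this, hx]
    linear_combination (-(g * r)) * huv
  have h3 : w (g * c' * y) = 0 := by
    by_cases hy0 : y = 0
    · rw [hy0, mul_zero, map_zero]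
    · apply hc
      have h4 : y.natDegree < a'.natDegree := by
        apply natDegree_lt_natDegree hy0
        exact degree_mod_lt _ ha'
      omega
  have h5 : w (g * a' * x) = 0 := by
    by_cases hx0 : x = 0
    · rw [hx0, mul_zero, map_zero]
    · apply ha
      have h6 : a' * x = r - c' * y := by
        have : y = r * v - a' * s := by rw [← h1]; ring
        rw [this, hx]
        linear_combination r * huv
      have h7 : (a' * x).natDegree = a'.natDegree + x.natDegree := natDegree_mul ha' hx0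
      rw [h6] at h7
      have h8 : (r - c' * y).natDegree ≤ max r.natDegree (c' * y).natDegree :=
        natDegree_sub_le _ _
      by_cases hy0 : y = 0
      · rw [hy0, mul_zero, sub_zero] at h7
        omega
      · have h4 : y.natDegree < a'.natDegree := by
          apply natDegree_lt_natDegree hy0
          exact degree_mod_lt _ ha'
        have h9 : (c' * y).natDegree ≤ c'.natDegree + y.natDegree := natDegree_mul_le
        omega
  rw [h2, map_add, h3, h5, add_zero]

/-- the greatest common divisor of two killers is a killer -/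
lemma gcd_kill {N : ℕ} {w : K[X] →ₗ[K] K} {α β : ℕ} {a c : K[X]} (ha0 : a ≠ 0) (hc0 : c ≠ 0)
    (hα : a.natDegree ≤ α) (hβ : c.natDegree ≤ β) (hαβ : α + β ≤ N + 1) (ha : Kl N w α a)
    (hc : Kl N w β c) : ∃ (g a' c' : K[X]) (γ : ℕ), g ≠ 0 ∧ a = g * a' ∧ c = g * c' ∧
      γ + a'.natDegree ≤ α ∧ γ + c'.natDegree ≤ β ∧ g.natDegree ≤ γ ∧ Kl N w γ g := by
  classical
  set g := EuclideanDomain.gcd a c with hgdef
  have hg : g ≠ 0 := by
    intro h
    exact ha0 (EuclideanDomain.gcd_eq_zero_iff.1 h).1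
  obtain ⟨a', haa⟩ := EuclideanDomain.gcd_dvd_left a c
  obtain ⟨c', hcc⟩ := EuclideanDomain.gcd_dvd_right a c
  rw [← hgdef] at haa hcc
  have ha'0 : a' ≠ 0 := by
    rintro rfl
    exact ha0 (by rw [haa, mul_zero])
  have hc'0 : c' ≠ 0 := by
    rintro rfl
    exact hc0 (by rw [hcc, mul_zero])
  have hcop : IsCoprime a' c' := by
    have h1 := EuclideanDomain.gcd_eq_gcd_ab a c
    rw [← hgdef] at h1
    refine ⟨EuclideanDomain.gcdA a c, EuclideanDomain.gcdB a c, ?_⟩
    apply mul_left_cancel₀ hg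
    rw [mul_one]
    linear_combination (-1 : K[X]) * h1 - EuclideanDomain.gcdA a c * haa -
      EuclideanDomain.gcdB a c * hcc
  clear_value g
  subst haa
  subst hcc
  have hda : (g * a').natDegree = g.natDegree + a'.natDegree := natDegree_mul hg ha'0
  have hdc : (g * c').natDegree = g.natDegree + c'.natDegree := natDegree_mul hg hc'0
  rcases le_total (c'.natDegree + α) (β + a'.natDegree) with hμ | hμ
  · refine ⟨g, a', c', α - a'.natDegree, hg, rfl, rfl, by omega, by omega, by omega, ?_⟩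
    exact gcd_aux hg ha'0 hcop hα hαβ ha hc hμ
  · refine ⟨g, a', c', β - c'.natDegree, hg, rfl, rfl, by omega, by omega, by omega, ?_⟩
    exact gcd_aux hg hc'0 hcop.symm hβ (by omega) hc ha (by omega)

/-- the combination of functionals -/
noncomputable def cmb {n : ℕ} (P : Fin (n + 1) → (K[X] →ₗ[K] K)) (c : Fin (n + 1) → K) :
    K[X] →ₗ[K] K := ∑ i, c i • P i

lemma cmb_apply {n : ℕ} (P : Fin (n + 1) → (K[X] →ₗ[K] K)) (c : Fin (n + 1) → K) (r : K[X]) :
    cmb P c r = ∑ i, c i * P i r := by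
  unfold cmb
  simp

/-- the vectors killed by a form -/
def Zs {n : ℕ} (N : ℕ) (P : Fin (n + 1) → (K[X] →ₗ[K] K)) (α : ℕ) (a : K[X]) :
    Submodule K (Fin (n + 1) → K) where
  carrier := {c | Kl N (cmb P c) α a}
  zero_mem' := by
    intro r _
    rw [cmb_apply]
    simp
  add_mem' := by
    intro c c' hc hc' r hr
    have h1 := hc r hr
    have h2 := hc' r hr
    rw [cmb_apply] at h1 h2 ⊢
    simp_rw [Pi.add_apply, add_mul]
    rw [Finset.sum_add_distrib, h1, h2, add_zero]
  smul_mem' := by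
    intro b c hc r hr
    have h1 := hc r hr
    rw [cmb_apply] at h1 ⊢
    simp_rw [Pi.smul_apply, smul_eq_mul, mul_assoc]
    rw [← Finset.mul_sum, h1, mul_zero]

/-- the hyperplane `θ` -/
def Hyp {n : ℕ} (θ : Fin (n + 1) → K) : Submodule K (Fin (n + 1) → K) where
  carrier := {c | dotProduct θ c = 0}
  zero_mem' := dotProduct_zero _
  add_mem' := by
    intro a b ha hb
    change dotProduct θ (a + b) = 0
    rw [dotProduct_add, ha, hb, add_zero]
  smul_mem' := by
    intro c a ha
    change dotProduct θ (c • a) = 0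
    rw [dotProduct_smul, ha, smul_zero]

lemma exists_dot {n : ℕ} {θ θ' : Fin (n + 1) → K} (hθ : θ ≠ 0) (h : ¬ ∃ e : K, θ' = e • θ) :
    ∃ x, dotProduct θ x = 0 ∧ dotProduct θ' x = 1 := by
  classical
  obtain ⟨i0, hi0⟩ : ∃ i0, θ i0 ≠ 0 := by
    by_contra hne
    push Not at hne
    exact hθ (funext hne)
  by_contra hne
  push Not at hne
  apply h
  refine ⟨θ' i0 / θ i0, ?_⟩
  funext j
  set x : Fin (n + 1) → K := Pi.single j (θ i0) - Pi.single i0 (θ j) with hx
  have h1 : dotProduct θ x = 0 := by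
    rw [hx, dotProduct_sub, dotProduct_single, dotProduct_single]
    ring
  have h2 : dotProduct θ' x = 0 := by
    by_contra h3
    apply hne ((dotProduct θ' x)⁻¹ • x)
    · rw [dotProduct_smul, h1, smul_zero]
    · rw [dotProduct_smul, smul_eq_mul, inv_mul_cancel₀ h3]
  rw [hx, dotProduct_sub, dotProduct_single, dotProduct_single] at h2
  rw [Pi.smul_apply, smul_eq_mul]
  field_simp
  linear_combination h2

lemma exists_indep {n : ℕ} (hn : 2 ≤ n) (θ v : Fin (n + 1) → K) :
    ∃ θ' : Fin (n + 1) → K, dotProduct θ' v = 0 ∧ ¬ ∃ e : K, θ' = e • θ := by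
  by_contra hne
  push Not at hne
  let φ : (Fin (n + 1) → K) →ₗ[K] K := 
    { toFun := fun x => dotProduct x v
      map_add' := fun a b => add_dotProduct a b v
      map_smul' := fun c a => by rw [smul_dotProduct]; rfl }
  have h1 : LinearMap.ker φ ≤ Submodule.span K {θ} := by
    intro x hx
    obtain ⟨e, he⟩ := hne x hx
    rw [Submodule.mem_span_singleton]
    exact ⟨e, he.symm⟩
  have h2 := Submodule.finrank_mono h1
  have h3 : Module.finrank K (Submodule.span K {θ}) ≤ 1 :=
    (finrank_span_le_card ({θ} : Set (Fin (n + 1) → K))).trans (by simp)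
  have h4 := LinearMap.finrank_range_add_finrank_ker φ
  have h5 : Module.finrank K (LinearMap.range φ) ≤ 1 := by
    have := Submodule.finrank_le (LinearMap.range φ)
    rwa [Module.finrank_self] at this
  rw [Module.finrank_fin_fun] at h4
  omega

/-- there is a hyperplane without new killers in low degree -/
theorem uni [IsAlgClosed K] {n : ℕ} (hn : 2 ≤ n) (N k : ℕ) (hk : 2 * k ≤ N + 1)
    (P : Fin (n + 1) → (K[X] →ₗ[K] K)) :
    ∃ θ : Fin (n + 1) → K, θ ≠ 0 ∧ ∀ a : K[X], a.natDegree ≤ k → Hyp θ ≤ Zs N P k a →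
      Zs N P k a = ⊤ := by
  classical
  have hinf : Infinite K := inferInstance
  by_contra hne
  push Not at hne
  -- minimal formal degrees
  let Q : (Fin (n + 1) → K) → ℕ → Prop := fun θ α =>
    ∃ a : K[X], a.natDegree ≤ α ∧ Hyp θ ≤ Zs N P α a ∧ Zs N P α a ≠ ⊤
  have hQ : ∀ θ : {θ : Fin (n + 1) → K // θ ≠ 0}, ∃ α, Q θ.1 α := by
    intro θ
    obtain ⟨a, ha, h1, h2⟩ := hne θ.1 θ.2
    exact ⟨k, a, ha, h1, h2⟩
  have hQk : ∀ θ : {θ : Fin (n + 1) → K // θ ≠ 0}, Nat.find (hQ θ) ≤ k := by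
    intro θ
    apply Nat.find_min'
    obtain ⟨a, ha, h1, h2⟩ := hne θ.1 θ.2
    exact ⟨a, ha, h1, h2⟩
  -- a hyperplane with maximal degree
  obtain ⟨θ0, hmax⟩ : ∃ θ0 : {θ : Fin (n + 1) → K // θ ≠ 0},
      ∀ θ : {θ : Fin (n + 1) → K // θ ≠ 0}, Nat.find (hQ θ) ≤ Nat.find (hQ θ0) := by
    have h1 : ∃ M, ∃ θ : {θ : Fin (n + 1) → K // θ ≠ 0}, k - Nat.find (hQ θ) = M := by
      refine ⟨_, ⟨fun _ => 1, ?_⟩, rfl⟩
      intro h
      have := congrFun h 0
      simp at this
    obtain ⟨θ0, hθ0⟩ := Nat.find_spec h1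
    refine ⟨θ0, fun θ => ?_⟩
    by_contra hlt
    push Not at hlt
    have h2 := Nat.find_min h1 (m := k - Nat.find (hQ θ)) (by
      rw [← hθ0]
      have := hQk θ
      omega)
    exact h2 ⟨θ, rfl⟩
  set α0 := Nat.find (hQ θ0) with hα0
  obtain ⟨a0, ha0, hH0, hT0⟩ := Nat.find_spec (hQ θ0)
  rw [← hα0] at ha0 hH0 hT0
  have hmin : ∀ α, α < α0 → ∀ a : K[X], a.natDegree ≤ α → Hyp θ0.1 ≤ Zs N P α a →
      Zs N P α a = ⊤ := by
    intro α hα a ha hH
    by_contra hT
    exact Nat.find_min (hQ θ0) hα ⟨a, ha, hH, hT⟩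
  have hα0k : α0 ≤ k := hQk θ0
  have ha00 : a0 ≠ 0 := by
    rintro rfl
    apply hT0
    rw [eq_top_iff]
    intro c _ r _
    rw [zero_mul, map_zero]
  -- maximal proper divisors
  have hdiv : ∀ ψ e : K[X], a0 = ψ * e → e.natDegree ≤ 1 → ψ.natDegree + 1 ≤ α0 →
      ∃ c ∈ Hyp θ0.1, c ∉ Zs N P (α0 - 1) ψ := by
    intro ψ e hψ he hd
    by_contra hcon
    push Not at hcon
    have h1 := hmin (α0 - 1) (by omega) ψ (by omega) hcon
    apply hT0
    rw [eq_top_iff]
    intro c _
    have h2 : c ∈ Zs N P (α0 - 1) ψ := by rw [h1]; trivial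
    change Kl N (cmb P c) α0 a0
    rw [hψ]
    exact Kl.mono_mul h2 (by omega)
  -- a vector avoiding them
  let ι := Option (a0.roots.toFinset)
  let D : ι → K[X] := fun o => match o with
    | none => a0
    | some t => a0 /ₘ (X - C t.1)
  have hDsome : ∀ t (ht : t ∈ a0.roots.toFinset), a0 = D (some ⟨t, ht⟩) * (X - C t) := by
    intro t ht
    change a0 = (a0 /ₘ (X - C t)) * (X - C t)
    rw [mul_comm]
    have h1 : IsRoot a0 t := by
      rw [Multiset.mem_toFinset, mem_roots ha00] at ht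
      exact ht
    exact (mul_divByMonic_eq_iff_isRoot.2 h1).symm
  obtain ⟨v, hv, hvD⟩ : ∃ v ∈ Hyp θ0.1, ∀ o : ι, (D o).natDegree + 1 ≤ α0 →
      v ∉ Zs N P (α0 - 1) (D o) := by
    by_contra hcon
    push Not at hcon
    let S : ι → Submodule K (Hyp θ0.1) := fun o =>
      if (D o).natDegree + 1 ≤ α0 then (Zs N P (α0 - 1) (D o)).comap (Hyp θ0.1).subtype else ⊥
    have hcov : (⋃ o, (S o : Set (Hyp θ0.1))) = Set.univ := by
      rw [Set.eq_univ_iff_forall]
      intro c
      obtain ⟨o, ho1, ho2⟩ := hcon c.1 c.2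
      rw [Set.mem_iUnion]
      refine ⟨o, ?_⟩
      simp only [S]
      rw [if_pos ho1]
      exact ho2
    obtain ⟨o, ho⟩ := Subspace.exists_eq_top_of_iUnion_eq_univ hcov
    simp only [S] at ho
    by_cases hd : (D o).natDegree + 1 ≤ α0
    · rw [if_pos hd] at ho
      have h1 : ∀ c ∈ Hyp θ0.1, c ∈ Zs N P (α0 - 1) (D o) := by
        intro c hc
        have h2 : (⟨c, hc⟩ : Hyp θ0.1) ∈ (Zs N P (α0 - 1) (D o)).comap (Hyp θ0.1).subtype := by
          rw [ho]
          trivial
        exact h2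
      rcases o with _ | t
      · obtain ⟨c, hc, hc'⟩ := hdiv a0 1 (by rw [mul_one]) (by simp) hd
        exact hc' (h1 c hc)
      · obtain ⟨c, hc, hc'⟩ := hdiv (D (some t)) (X - C t.1) (hDsome t.1 t.2) (by simp) hd
        exact hc' (h1 c hc)
    · rw [if_neg hd] at ho
      -- the hyperplane is not zero
      obtain ⟨θ', h1, h2⟩ := exists_indep hn θ0.1 0
      have h3 : Module.finrank K (Hyp θ0.1) = 0 := by
        rw [← finrank_top, ← ho, finrank_bot]
      obtain ⟨θ'', h4, h5⟩ := exists_indep (n := n) hn 0 θ0.1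
      have h6 : θ'' ∈ Hyp θ0.1 := by
        change dotProduct θ0.1 θ'' = 0
        rw [dotProduct_comm]
        exact h4
      have h7 : (⟨θ'', h6⟩ : Hyp θ0.1) ∈ (⊤ : Submodule K (Hyp θ0.1)) := trivial
      rw [← ho, Submodule.mem_bot] at h7
      apply h5
      refine ⟨0, ?_⟩
      rw [smul_zero]
      exact congrArg Subtype.val h7
  -- the second hyperplane
  obtain ⟨θ', hθ'v, hθ'⟩ := exists_indep hn θ0.1 v
  have hθ'0 : θ' ≠ 0 := by
    rintro rfl
    exact hθ' ⟨0, by rw [zero_smul]⟩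
  have hα' := hmax ⟨θ', hθ'0⟩
  obtain ⟨a', ha', hH', hT'⟩ := Nat.find_spec (hQ ⟨θ', hθ'0⟩)
  set α' := Nat.find (hQ ⟨θ', hθ'0⟩) with hα'def
  have ha'0 : a' ≠ 0 := by
    rintro rfl
    apply hT'
    rw [eq_top_iff]
    intro c _ r _
    rw [zero_mul, map_zero]
  have hv1 : Kl N (cmb P v) α0 a0 := hH0 hv
  have hv2 : Kl N (cmb P v) α' a' := hH' hθ'v
  obtain ⟨g, b, b', γ, hg, hgb, hgb', h1, h2, h3, h4⟩ := gcd_kill ha00 ha'0 ha0 ha' (by omega) hv1
    hv2
  have hb0 : b ≠ 0 := by
    rintro rfl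
    exact ha00 (by rw [hgb, mul_zero])
  have hb'0 : b' ≠ 0 := by
    rintro rfl
    exact ha'0 (by rw [hgb', mul_zero])
  have hdb : a0.natDegree = g.natDegree + b.natDegree := by rw [hgb, natDegree_mul hg hb0]
  have hdb' : a'.natDegree = g.natDegree + b'.natDegree := by rw [hgb', natDegree_mul hg hb'0]
  rcases Nat.lt_or_ge γ α0 with hγ | hγ
  · by_cases hbd : b.natDegree = 0
    · -- the divisor is a0 with smaller formal degree
      apply hvD none
      · change a0.natDegree + 1 ≤ α0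
        omega
      · change Kl N (cmb P v) (α0 - 1) a0
        rw [hgb]
        exact Kl.mono_mul h4 (by omega)
    · obtain ⟨t, ht⟩ := IsAlgClosed.exists_root b (by
        intro h
        apply hbd
        exact natDegree_eq_of_degree_eq_some h)
      have htr : t ∈ a0.roots.toFinset := by
        rw [Multiset.mem_toFinset, mem_roots ha00, hgb, IsRoot, eval_mul, ht.eq_zero, mul_zero]
      have h5 := hDsome t htr
      obtain ⟨e, he⟩ := dvd_iff_isRoot.2 ht
      have hX : (X - C t : K[X]) ≠ 0 := X_sub_C_ne_zero t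
      have he0 : e ≠ 0 := by
        rintro rfl
        exact hb0 (by rw [he, mul_zero])
      have h6 : D (some ⟨t, htr⟩) = g * e := by
        apply mul_right_cancel₀ hX
        rw [← h5, hgb, he]
        ring
      have h7 : b.natDegree = 1 + e.natDegree := by
        rw [he, natDegree_mul hX he0, natDegree_X_sub_C]
      have h8 : (g * e).natDegree = g.natDegree + e.natDegree := natDegree_mul hg he0
      apply hvD (some ⟨t, htr⟩)
      · rw [h6]
        omega
      · change Kl N (cmb P v) (α0 - 1) _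
        rw [h6]
        exact Kl.mono_mul h4 (by omega)
  · -- the two forms are proportional
    have h5 : γ = α0 := by omega
    have h6 : α' = α0 := by omega
    have h7 : b.natDegree = 0 := by omega
    have h8 : b'.natDegree = 0 := by omega
    have h9 : ∃ e : K, a0 = a' * C e := by
      rw [natDegree_eq_zero] at h7 h8
      obtain ⟨x, rfl⟩ := h7
      obtain ⟨y, rfl⟩ := h8
      have hy : y ≠ 0 := by
        rintro rfl
        exact hb'0 (by simp)
      refine ⟨y⁻¹ * x, ?_⟩
      rw [hgb, hgb', C_mul, mul_assoc, ← mul_assoc (C y), ← C_mul, mul_inv_cancel₀ hy, C_1, one_mul]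
    obtain ⟨e, he⟩ := h9
    have h10 : Hyp θ' ≤ Zs N P α0 a0 := by
      intro c hc
      change Kl N (cmb P c) α0 a0
      rw [he]
      have h11 : Kl N (cmb P c) α' a' := hH' hc
      exact Kl.mono_mul h11 (by rw [natDegree_C]; omega)
    apply hT0
    rw [eq_top_iff]
    intro c _
    obtain ⟨x, hx1, hx2⟩ := exists_dot θ0.2 hθ'
    have h11 : c - dotProduct θ' c • x ∈ Zs N P α0 a0 := by
      apply h10
      change dotProduct θ' (c - dotProduct θ' c • x) = 0
      rw [dotProduct_sub, dotProduct_smul, hx2, smul_eq_mul, mul_one, sub_self]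
    have h12 : dotProduct θ' c • x ∈ Zs N P α0 a0 := Submodule.smul_mem _ _ (hH0 hx1)
    have := Submodule.add_mem _ h11 h12
    rwa [sub_add_cancel] at this

end Pool.Agent.PZD
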