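import Pool.Agent.PZD.Hyper
import Pool.Agent.PZD.Uni

/-!
# PZD: two variables `u_1, u_2`
-/

set_option autoImplicit false

namespace Pool.Agent.PZD

open MvPolynomial

variable {K : Type} [Field K]

/-- homogenisation in degree `N` -/
noncomputable def HN (N : ℕ) : Polynomial K →ₗ[K] Pu 2 K where
  toFun a := ∑ i ∈ Finset.range (N + 1), C (a.coeff i) * (X 0 ^ i * X 1 ^ (N - i))
  map_add' a b := by
    rw [← Finset.sum_add_distrib]
    apply Finset.sum_congr rfl
    intro i _
    rw [Polynomial.coeff_add, C_add, add_mul]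
  map_smul' c a := by
    rw [RingHom.id_apply, Finset.smul_sum]
    apply Finset.sum_congr rfl
    intro i _
    rw [Polynomial.coeff_smul, smul_eq_mul, C_mul, mul_assoc, C_mul']

lemma HN_mon (N i : ℕ) (hi : i ≤ N) (c : K) :
    HN N (Polynomial.C c * Polynomial.X ^ i) = C c * (X 0 ^ i * X 1 ^ (N - i)) := by
  change ∑ j ∈ Finset.range (N + 1), _ = _
  rw [Finset.sum_eq_single i]
  · rw [Polynomial.coeff_C_mul_X_pow, if_pos rfl]
  · intro j _ hj
    rw [Polynomial.coeff_C_mul_X_pow, if_neg hj, C_0, zero_mul]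
  · intro h
    rw [Finset.mem_range] at h
    omega

lemma HN_mul {α β : ℕ} {a r : Polynomial K} (ha : a.natDegree ≤ α) (hr : r.natDegree ≤ β) :
    HN (α + β) (a * r) = HN α a * HN β r := by
  have h1 : a = ∑ i ∈ Finset.range (α + 1), Polynomial.C (a.coeff i) * Polynomial.X ^ i :=
    a.as_sum_range_C_mul_X_pow' (by omega)
  have h2 : r = ∑ i ∈ Finset.range (β + 1), Polynomial.C (r.coeff i) * Polynomial.X ^ i :=
    r.as_sum_range_C_mul_X_pow' (by omega)
  rw [h1, h2, Finset.sum_mul_sum, map_sum, map_sum, map_sum, Finset.sum_mul_sum]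
  apply Finset.sum_congr rfl
  intro i hi
  rw [map_sum]
  apply Finset.sum_congr rfl
  intro j hj
  rw [Finset.mem_range] at hi hj
  have h3 : Polynomial.C (a.coeff i) * Polynomial.X ^ i * (Polynomial.C (r.coeff j) *
      Polynomial.X ^ j) = Polynomial.C (a.coeff i * r.coeff j) * Polynomial.X ^ (i + j) := by
    rw [Polynomial.C_mul, pow_add]
    ring
  rw [h3, HN_mon _ _ (by omega), HN_mon _ _ (by omega), HN_mon _ _ (by omega), C_mul,
    show α + β - (i + j) = (α - i) + (β - j) by omega, pow_add, pow_add]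
  ring

lemma HN_surj {k : ℕ} {q : Pu 2 K} (hq : q ∈ Hs (Fin 2) K k) :
    ∃ a : Polynomial K, a.natDegree ≤ k ∧ HN k a = q := by
  have hdeg : ∀ s ∈ q.support, s 0 + s 1 = k := by
    intro s hs
    have h1 : s.degree = k := by
      have := hq (mem_support_iff.1 hs)
      rwa [Finsupp.degree_eq_weight_one]
    rw [Finsupp.degree_eq_sum, Fin.sum_univ_two] at h1
    exact h1
  refine ⟨∑ s ∈ q.support, Polynomial.C (coeff s q) * Polynomial.X ^ (s 0), ?_, ?_⟩
  · apply Polynomial.natDegree_sum_le_of_forall_le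
    intro s hs
    have h1 := hdeg s hs
    refine (Polynomial.natDegree_C_mul_X_pow_le _ _).trans ?_
    omega
  · rw [map_sum]
    conv_rhs => rw [← support_sum_monomial_coeff q]
    apply Finset.sum_congr rfl
    intro s hs
    have h1 := hdeg s hs
    rw [HN_mon _ _ (by omega), monomial_eq, Finsupp.prod_fintype _ _ (fun i => pow_zero _),
      Fin.prod_univ_two, show k - s 0 = s 1 by omega]

variable {n d : ℕ} {p : Fin (n + 1) → (Pu 2 K →ₗ[K] K)} {g : Pu 2 K →ₗ[K] K}
variable {F : Rg n 2 K →ₗ[K] K}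

lemma two_theta [IsAlgClosed K] (hn : 2 ≤ n) (hd : 1 ≤ d) (hp : ∀ i, IsForm (d - 1) (p i)) :
    ∃ θ : Fin (n + 1) → K, θ ≠ 0 ∧ ∀ q ∈ Hs (Fin 2) K (d / 2), KT θ p q → KA p q := by
  classical
  obtain ⟨θ, hθ, h⟩ := uni hn (d - 1) (d / 2) (by omega) (fun i => p i ∘ₗ HN (d - 1))
  refine ⟨θ, hθ, ?_⟩
  intro q hq hT
  obtain ⟨a, ha, rfl⟩ := HN_surj hq
  obtain ⟨i0, hi0⟩ : ∃ i0, θ i0 ≠ 0 := by
    by_contra hne
    push Not at hne
    exact hθ (funext hne)
  have h1 : Zs (d - 1) (fun i => p i ∘ₗ HN (d - 1)) (d / 2) a = ⊤ := by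
    apply h a ha
    intro c hc r hr
    rw [cmb_apply]
    have h2 : a * r = a * r := rfl
    have h3 : HN (d - 1) (a * r) = HN (d / 2) a * HN (d - 1 - d / 2) r := by
      rw [← HN_mul ha (by omega), show d / 2 + (d - 1 - d / 2) = d - 1 by omega]
    simp only [LinearMap.comp_apply, h3]
    have h4 : ∀ i, c i * p i (HN (d / 2) a * HN (d - 1 - d / 2) r) =
        (θ i * c i) * ((θ i0)⁻¹ * p i0 (HN (d / 2) a * HN (d - 1 - d / 2) r)) := by
      intro i
      have := hT i0 i (HN (d - 1 - d / 2) r)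
      field_simp
      linear_combination c i * this
    rw [Finset.sum_congr rfl (fun i _ => h4 i), ← Finset.sum_mul]
    have h5 : dotProduct θ c = 0 := hc
    rw [dotProduct] at h5
    rw [h5, zero_mul]
  intro i r
  have h6 : Pi.single i 1 ∈ Zs (d - 1) (fun i => p i ∘ₗ HN (d - 1)) (d / 2) a := by
    rw [h1]
    trivial
  induction r using hs_induction with
  | h0 => simp
  | hadd x y hx hy => rw [mul_add, map_add, hx, hy, add_zero]
  | hs l r hr =>
    by_cases hl : d / 2 + l = d - 1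
    · obtain ⟨b, hb, rfl⟩ := HN_surj hr
      have h7 := h6 b (by omega)
      rw [cmb_apply, Finset.sum_eq_single i] at h7
      · rw [Pi.single_eq_same, one_mul, LinearMap.comp_apply, ← hl, HN_mul ha hb] at h7
        exact h7
      · intro j _ hj
        rw [Pi.single_eq_of_ne hj, zero_mul]
      · simp
    · exact hp i _ hl _ (hs_mul hq hr)

/-- two variables -/
theorem IsPerazzo.doubling_of_two [IsAlgClosed K] (hF : IsPerazzo d F p g) (hd : 1 ≤ d)
    (hn : 2 ≤ n) : IsDoublingOfPoints (Ann F) := by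
  obtain ⟨θ, hθ, h⟩ := two_theta hn hd hF.hp
  exact hF.doubling hd θ hθ (HT_of_half hd hF.hp θ h)

end Pool.Agent.PZD
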