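import Pool.Agent.PZD.Hyper

/-!
# PZD: forms with `g` in `K[U]_1 W`
-/

set_option autoImplicit false

namespace Pool.Agent.PZD

open MvPolynomial

section

variable {n m : ℕ} {K : Type} [Field K]
variable {d : ℕ} {p : Fin (n + 1) → (Pu m K →ₗ[K] K)} {g : Pu m K →ₗ[K] K}
variable {F : Rg n m K →ₗ[K] K}

/-- the ideal of the `x_i x_j` -/
noncomputable def I2 (n m : ℕ) (K : Type) [Field K] : Ideal (Rg n m K) :=
  Ideal.span {r | ∃ i j, r = xx n m K i * xx n m K j}

lemma I2_mem (i j : Fin (n + 1)) : xx n m K i * xx n m K j ∈ I2 n m K :=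
  Ideal.subset_span ⟨i, j, rfl⟩

lemma IsPerazzo.I2 (hF : IsPerazzo d F p g) {r : Rg n m K} (hr : r ∈ PZD.I2 n m K) :
    F r = 0 := by
  have key : ∀ a, F (r * a) = 0 := by
    unfold PZD.I2 at hr
    induction hr using Submodule.span_induction with
    | mem x hx =>
      obtain ⟨i, j, rfl⟩ := hx
      exact hF.quad i j
    | zero => simp
    | add x y _ _ hx hy => 
      intro a
      rw [add_mul, map_add, hx, hy, add_zero]
    | smul b x _ hx =>
      intro a
      rw [smul_eq_mul, show b * x * a = x * (b * a) by ring]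
      exact hx _
  have := key 1
  rwa [mul_one] at this

/-- the derivation `∑_j c_{ij} ∂/∂u_j` -/
noncomputable def Dc (c : Fin (n + 1) → Fin m → K) (i : Fin (n + 1)) (r : Pu m K) : Pu m K :=
  ∑ j, C (c i j) * pderiv j r

lemma Dc_add (c : Fin (n + 1) → Fin m → K) (i : Fin (n + 1)) (a b : Pu m K) :
    Dc c i (a + b) = Dc c i a + Dc c i b := by
  unfold Dc
  simp only [map_add, mul_add, Finset.sum_add_distrib]

lemma Dc_X (c : Fin (n + 1) → Fin m → K) (i : Fin (n + 1)) (a : Pu m K) (j : Fin m) :
    Dc c i (a * X j) = Dc c i a * X j + C (c i j) * a := by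
  unfold Dc
  have h1 : ∀ k, C (c i k) * pderiv k (a * X j) =
      C (c i k) * pderiv k a * X j + (if k = j then C (c i j) * a else 0) := by
    intro k
    rw [Derivation.leibniz, pderiv_X, Pi.single_apply]
    split_ifs with h h'
    · subst h
      simp
      ring
    · exact absurd h.symm h'
    · rename_i h''
      exact absurd h''.symm h
    · simp
      ring
  rw [Finset.sum_congr rfl (fun k _ => h1 k), Finset.sum_add_distrib, Finset.sum_ite_eq',
    if_pos (Finset.mem_univ _), Finset.sum_mul]

/-- first order expansion of the change of coordinates in `u` -/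
lemma vu_inu (c : Fin (n + 1) → Fin m → K) (r : Pu m K) :
    aeval (vu c) (inu n m K r) - (inu n m K r + ∑ i, xx n m K i * inu n m K (Dc c i r)) ∈
      I2 n m K := by
  induction r using MvPolynomial.induction_on with
  | C a =>
    have h1 : ∀ i, Dc c i (C a) = 0 := by
      intro i
      unfold Dc
      simp
    simp only [h1, map_zero, mul_zero, Finset.sum_const_zero, add_zero]
    rw [inu, rename_C, aeval_C, algebraMap_eq, sub_self]
    exact Submodule.zero_mem _
  | add a b ha hb =>
    have := Submodule.add_mem _ ha hb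
    convert this using 1
    simp only [Dc_add, map_add, mul_add, Finset.sum_add_distrib]
    ring
  | mul_X a j ha =>
    have h1 : aeval (vu c) (inu n m K (X j)) = X (Sum.inr j) + ∑ i, C (c i j) * xx n m K i := by
      rw [inu, rename_X, aeval_X]
      rfl
    have h2 : aeval (vu c) (inu n m K (a * X j)) -
        (inu n m K (a * X j) + ∑ i, xx n m K i * inu n m K (Dc c i (a * X j))) =
        (aeval (vu c) (inu n m K a) - (inu n m K a + ∑ i, xx n m K i * inu n m K (Dc c i a))) *
          (X (Sum.inr j) + ∑ i, C (c i j) * xx n m K i) +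
        ∑ i, ∑ k, (C (c k j) * inu n m K (Dc c i a)) * (xx n m K i * xx n m K k) := by
      rw [map_mul (inu n m K), map_mul (aeval (vu c)), h1]
      simp_rw [Dc_X]
      have h3 : ∑ i, xx n m K i * inu n m K (Dc c i a * X j + C (c i j) * a) =
          (∑ i, xx n m K i * inu n m K (Dc c i a)) * X (Sum.inr j) +
          inu n m K a * ∑ i, C (c i j) * xx n m K i := by
        rw [Finset.sum_mul, Finset.mul_sum, ← Finset.sum_add_distrib]
        apply Finset.sum_congr rfl
        intro i _
        rw [map_add, map_mul, map_mul, inu, rename_X, rename_C]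
        ring
      have h4 : ∑ i, ∑ k, (C (c k j) * inu n m K (Dc c i a)) * (xx n m K i * xx n m K k) =
          (∑ i, xx n m K i * inu n m K (Dc c i a)) * ∑ i, C (c i j) * xx n m K i := by
        rw [Finset.sum_mul_sum]
        apply Finset.sum_congr rfl
        intro i _
        apply Finset.sum_congr rfl
        intro k _
        ring
      rw [h3, h4, inu, rename_X]
      ring
    rw [h2]
    apply Submodule.add_mem
    · exact Ideal.mul_mem_right _ _ ha
    · apply Submodule.sum_mem
      intro i _
      apply Submodule.sum_mem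
      intro k _
      exact Ideal.mul_mem_left _ _ (I2_mem i k)

lemma IsPerazzo.tu (hF : IsPerazzo d F p g) (c : Fin (n + 1) → Fin m → K)
    (hg : ∀ r, g r = ∑ i, ∑ j, c i j * p i (pderiv j r)) :
    IsPerazzo d (F ∘ₗ (tu (-c)).toLinearMap) p 0 := by
  have hx : ∀ i, PZD.tu (m := m) (-c) (xx n m K i) = xx n m K i := by
    intro i
    change aeval (vu (-c)) (X (Sum.inl i)) = _
    rw [aeval_X]
    rfl
  have hI : ∀ r s, r - s ∈ PZD.I2 n m K → F r = F s := by
    intro r s hrs
    have := hF.I2 hrs
    rwa [map_sub, sub_eq_zero] at this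
  refine ⟨hF.hp, fun k _ r _ => rfl, hF.indep, ?_, ?_, ?_⟩
  · intro i j r
    change F (PZD.tu (m := m) (-c) (xx n m K i * xx n m K j * r)) = 0
    rw [map_mul (PZD.tu (m := m) (-c)), map_mul (PZD.tu (m := m) (-c)), hx, hx, hF.quad]
  · intro i r
    change F (PZD.tu (m := m) (-c) (xx n m K i * inu n m K r)) = _
    rw [map_mul (PZD.tu (m := m) (-c)), hx, ← hF.lin]
    apply hI
    rw [← mul_sub]
    have h1 : PZD.tu (m := m) (-c) (inu n m K r) - inu n m K r =
        (PZD.tu (m := m) (-c) (inu n m K r) - (inu n m K r +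
          ∑ k, xx n m K k * inu n m K (Dc (-c) k r))) +
        ∑ k, xx n m K k * inu n m K (Dc (-c) k r) := by ring
    rw [h1, mul_add]
    apply Submodule.add_mem
    · exact Ideal.mul_mem_left _ _ (vu_inu (-c) r)
    · rw [Finset.mul_sum]
      apply Submodule.sum_mem
      intro k _
      rw [← mul_assoc]
      exact Ideal.mul_mem_right _ _ (I2_mem i k)
  · intro r
    change F (aeval (vu (-c)) (inu n m K r)) = 0
    rw [hI _ _ (vu_inu (-c) r), map_add, hF.const, map_sum]
    simp_rw [hF.lin]
    rw [hg, ← Finset.sum_add_distrib]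
    apply Finset.sum_eq_zero
    intro i _
    unfold Dc
    rw [map_sum, ← Finset.sum_add_distrib]
    apply Finset.sum_eq_zero
    intro j _
    rw [C_mul', map_smul, smul_eq_mul, Pi.neg_apply, Pi.neg_apply]
    ring

/-- `g` in `K[U]_1 W` -/
theorem IsPerazzo.doubling_of_zero (hF : IsPerazzo d F p g) (hd : 1 ≤ d)
    (c : Fin (n + 1) → Fin m → K) (hg : ∀ r, g r = ∑ i, ∑ j, c i j * p i (pderiv j r)) :
    IsDoublingOfPoints (Ann F) := by
  have hF' := hF.tu c hg
  have hP : HP d 0 p 0 := by
    intro k _ _ q _ _ _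
    exact ⟨0, Submodule.zero_mem _, fun i r => by rw [zero_mul, map_zero],
      fun t _ _ => rfl⟩
  have h2 := (hF'.good hd 0 hP).transport (PZD.tu (m := m) (-c)).symm
    (fun k r hr => aeval_hs (vu_hs _) k r hr) (fun k r hr => aeval_hs (vu_hs _) k r hr)
  have h3 : (F ∘ₗ (PZD.tu (m := m) (-c)).toLinearMap) ∘ₗ
      (PZD.tu (m := m) (-c)).symm.toLinearMap = F := by
    apply LinearMap.ext
    intro r
    change F (PZD.tu (m := m) (-c) ((PZD.tu (m := m) (-c)).symm r)) = F r
    rw [AlgEquiv.apply_symm_apply]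
  rw [h3] at h2
  exact h2.doubling

end

end Pool.Agent.PZD
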